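import Pool.Agent.Q110.BS.Step

/-!
# The base families
-/

set_option autoImplicit false

open Finset

namespace Pool.Agent.Q110.BS

/-- one chain of length one -/
theorem str_one {ι : Type} {l : ι → ℕ} (j0 : ι) (h0 : l j0 = 1) (h : ∀ j, j ≠ j0 → l j = 0) :
    Str l := by
  classical
  refine ⟨Empty, inferInstance, inferInstance, ∅, ?_, ?_, ?_⟩
  · intro p hp
    simp at hp
  · rintro ⟨c, hc⟩
    have h1 := hc.card j0
    rw [h0, card_eq_one] at h1
    obtain ⟨x, hx⟩ := h1
    have := hc.sub j0 x (by rw [hx]; simp)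
    simp at this
  · intro t
    refine ⟨fun j => if j = j0 then {(t, 1)} else ∅, ⟨?_, ?_, ?_, ?_⟩, ∅, ?_⟩
    · intro j x hx
      split_ifs at hx with hj
      · rw [mem_singleton] at hx
        exact Or.inl hx
      · simp at hx
    · intro j
      split_ifs with hj
      · rw [hj, h0, card_singleton]
      · rw [h j hj, card_empty]
    · intro j x hx y hy
      split_ifs at hx hy with hj
      · rw [mem_singleton] at hx hy
        rw [hx, hy]
        exact Or.inl le_rfl
      · simp at hx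
    · intro i j hij x hx y hy
      split_ifs at hx hy with hi hj hj
      · exact absurd (hi.trans hj.symm) hij
      · simp at hy
      · simp at hx
      · simp at hx
    · intro j p hp
      dsimp only at hp
      split_ifs at hp with hj
      · rw [mem_singleton] at hp
        rw [hp]
        simp
      · simp at hp

/-- a maximal chain of sets through a given set -/
theorem exists_chain {Y : Type} [Fintype Y] [DecidableEq Y] (t : Finset Y) :
    ∃ T : ℕ → Finset Y, Monotone T ∧ (∀ n, n ≤ Fintype.card Y → (T n).card = n) ∧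
      (∀ n, n ≤ t.card → T n ⊆ t) ∧ (∀ n, t.card ≤ n → t ⊆ T n) := by
  classical
  set L := t.toList ++ tᶜ.toList with hL
  have hnd : L.Nodup := by
    rw [hL, List.nodup_append]
    refine ⟨nodup_toList t, nodup_toList _, ?_⟩
    intro a ha b hb hab
    rw [mem_toList] at ha hb
    rw [mem_compl] at hb
    exact hb (hab ▸ ha)
  have hlen : L.length = Fintype.card Y := by
    rw [hL, List.length_append, length_toList, length_toList, card_add_card_compl]
  refine ⟨fun n => (L.take n).toFinset, ?_, ?_, ?_, ?_⟩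
  · intro a b hab x hx
    rw [List.mem_toFinset] at hx ⊢
    exact (List.take_subset_take_left L hab) hx
  · intro n hn
    rw [List.toFinset_card_of_nodup (hnd.sublist (List.take_sublist n L)), List.length_take, hlen]
    omega
  · intro n hn x hx
    rw [List.mem_toFinset, hL, List.take_append_of_le_length (by rw [length_toList]; exact hn)] at hx
    exact mem_toList.1 (List.mem_of_mem_take hx)
  · intro n hn x hx
    rw [List.mem_toFinset, hL, List.take_append, List.mem_append]
    left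
    rw [List.take_of_length_le (by rw [length_toList]; exact hn)]
    exact mem_toList.2 hx

theorem exists_copy {ι B : Type} [PartialOrder B] {l : ι → ℕ} {k : ℕ} (hk : 2 ≤ k)
    (hl : ∀ j, l j = k ∨ l j = 1 ∨ l j = 0) (F : Set (B × ℕ)) (e : B)
    (κ : {j // l j = k} → ℕ → B × ℕ) (pt : ι → B × ℕ)
    (h1 : ∀ i a, a < k → κ i a ∈ F)
    (h2 : ∀ i a b, a < b → b < k → κ i a < κ i b)
    (h3 : ∀ i i', i ≠ i' → ∀ a b, a < k → b < k → ¬ κ i a ≤ κ i' b)
    (h4 : ∀ j, l j = 1 → pt j ∈ F)
    (h5 : ∀ j j', l j = 1 → l j' = 1 → j ≠ j' → ¬ pt j ≤ pt j')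
    (h6 : ∀ i a j, a < k → l j = 1 → ¬ κ i a ≤ pt j ∧ ¬ pt j ≤ κ i a)
    (h7 : ∀ i a, a < k → ((κ i a).2 = 0 → ¬ (κ i a).1 ≤ e) ∧ ((κ i a).2 = 2 → ¬ e ≤ (κ i a).1))
    (h8 : ∀ j, l j = 1 → ((pt j).2 = 0 → ¬ (pt j).1 ≤ e) ∧ ((pt j).2 = 2 → ¬ e ≤ (pt j).1)) :
    ∃ c, Cpy l F c ∧ ∃ e : B, ∀ j, ∀ p ∈ c j,
      (p.2 = 0 → ¬ p.1 ≤ e) ∧ (p.2 = 2 → ¬ e ≤ p.1) := by
  classical
  set c : ι → Finset (B × ℕ) := fun j => if h : l j = k then (range k).image (κ ⟨j, h⟩)
    else if l j = 1 then {pt j} else ∅ with hc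
  have hmem : ∀ j, ∀ x ∈ c j, (∃ h : l j = k, ∃ a < k, x = κ ⟨j, h⟩ a) ∨ (l j = 1 ∧ x = pt j) := by
    intro j x hx
    simp only [hc] at hx
    split_ifs at hx with h h'
    · rw [mem_image] at hx
      obtain ⟨a, ha, rfl⟩ := hx
      exact Or.inl ⟨h, a, mem_range.1 ha, rfl⟩
    · rw [mem_singleton] at hx
      exact Or.inr ⟨h', hx⟩
    · simp at hx
  refine ⟨c, ⟨?_, ?_, ?_, ?_⟩, e, ?_⟩
  · intro j x hx
    rcases hmem j x hx with ⟨h, a, ha, rfl⟩ | ⟨h, rfl⟩
    · exact h1 _ _ ha
    · exact h4 _ h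
  · intro j
    simp only [hc]
    split_ifs with h h'
    · rw [card_image_of_injOn, card_range, h]
      intro a ha b hb hab
      rw [coe_range, Set.mem_Iio] at ha hb
      rcases lt_trichotomy a b with h' | h' | h'
      · exact absurd hab (h2 _ a b h' hb).ne
      · exact h'
      · exact absurd hab.symm (h2 _ b a h' ha).ne
    · rw [card_singleton, h']
    · rcases hl j with h'' | h'' | h''
      · exact absurd h'' h
      · exact absurd h'' h'
      · rw [h'', card_empty]
  · intro j x hx y hy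
    rcases hmem j x hx with ⟨h, a, ha, rfl⟩ | ⟨h, rfl⟩ <;>
      rcases hmem j y hy with ⟨h', b, hb, rfl⟩ | ⟨h', rfl⟩
    · rcases lt_trichotomy a b with h' | h' | h'
      · exact Or.inl (h2 _ a b h' hb).le
      · rw [h']; exact Or.inl le_rfl
      · exact Or.inr (h2 _ b a h' ha).le
    · omega
    · omega
    · exact Or.inl le_rfl
  · intro i j hij x hx y hy
    rcases hmem i x hx with ⟨h, a, ha, rfl⟩ | ⟨h, rfl⟩ <;>
      rcases hmem j y hy with ⟨h', b, hb, rfl⟩ | ⟨h', rfl⟩
    · exact h3 _ _ (by simpa using hij) a b ha hb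
    · exact (h6 _ a j ha h').1
    · exact (h6 _ b i hb h).2
    · exact h5 i j h h' hij
  · intro j x hx
    rcases hmem j x hx with ⟨h, a, ha, rfl⟩ | ⟨h, rfl⟩
    · exact h7 _ _ ha
    · exact h8 _ h

end Pool.Agent.Q110.BS
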