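import Pool.Agent.Q110.BS.Base

/-!
# The base family for several chains of length `k` and some of length one: no copy
-/

set_option autoImplicit false

open Finset

namespace Pool.Agent.Q110.BS

section
variable {ι X Y : Type} [Fintype ι] [DecidableEq ι] [Fintype X] [DecidableEq X] [Fintype Y]
  [DecidableEq Y]

/-- the base family -/
def baseFam (k : ℕ) (N : Set ι) (w B : ι → Finset Y) : Set ((Finset X × Finset Y) × ℕ) :=
  {p | (∃ i, p.1.1 = {i} ∧ p.2 = 0 ∧ (p.1.2 = ∅ ∨ (2 ≤ p.1.2.card ∧ p.1.2.card ≤ k))) ∨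
    (∃ i, p.1.1 = {i} ∧ p.2 = 2 ∧ (p.1.2 = univ ∨ (1 ≤ p.1.2.card ∧ p.1.2.card ≤ k - 1))) ∨
    (∃ j ∈ N, p = ((∅, w j), 2)) ∨ (∃ j ∈ N, p = ((univ, B j), 0))}

/-- rank -/
def rk (k : ℕ) (p : (Finset X × Finset Y) × ℕ) : ℕ :=
  if p.1.1 = ∅ then 1 else if p.1.1 = univ then k - 1 else if p.2 = 0 then p.1.2.card - 1
    else p.1.2.card

/-- special elements -/
def special (p : (Finset X × Finset Y) × ℕ) : Prop :=
  ∃ i, p = (({i}, ∅), 0) ∨ p = (({i}, univ), 2)

theorem single_ne_univ (hX : 2 ≤ Fintype.card X) (i : X) : ({i} : Finset X) ≠ univ := by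
  intro h
  have := congrArg card h
  rw [card_singleton, card_univ] at this
  omega

theorem rk_facts {k : ℕ} (hk : 2 ≤ k) (hX : 2 ≤ Fintype.card X) {N : Set ι}
    {w B : ι → Finset Y} {p : (Finset X × Finset Y) × ℕ}
    (hp : p ∈ baseFam k N w B) (hs : ¬ special p) :
    (∃ i A, 2 ≤ A.card ∧ A.card ≤ k ∧ p = (({i}, A), 0) ∧ rk k p = A.card - 1) ∨
    (∃ i A, 1 ≤ A.card ∧ A.card ≤ k - 1 ∧ p = (({i}, A), 2) ∧ rk k p = A.card) ∨
    (∃ j ∈ N, p = ((∅, w j), 2) ∧ rk k p = 1) ∨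
    (∃ j ∈ N, p = ((univ, B j), 0) ∧ rk k p = k - 1) := by
  have hXne : Nonempty X := Fintype.card_pos_iff.1 (by omega)
  obtain ⟨⟨a, b⟩, q⟩ := p
  rcases hp with ⟨i, h1, h2, h3⟩ | ⟨i, h1, h2, h3⟩ | ⟨j, hj, h1⟩ | ⟨j, hj, h1⟩
  · left
    simp only at h1 h2 h3
    subst h1 h2
    rcases h3 with h3 | ⟨h3, h4⟩
    · subst h3
      exact absurd ⟨i, Or.inl rfl⟩ hs
    · refine ⟨i, b, h3, h4, rfl, ?_⟩
      unfold rk
      rw [if_neg (singleton_ne_empty i), if_neg (single_ne_univ hX i), if_pos rfl]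
  · right; left
    simp only at h1 h2 h3
    subst h1 h2
    rcases h3 with h3 | ⟨h3, h4⟩
    · subst h3
      exact absurd ⟨i, Or.inr rfl⟩ hs
    · refine ⟨i, b, h3, h4, rfl, ?_⟩
      unfold rk
      rw [if_neg (singleton_ne_empty i), if_neg (single_ne_univ hX i), if_neg (by norm_num)]
  · right; right; left
    rw [h1]
    refine ⟨j, hj, rfl, ?_⟩
    unfold rk
    rw [if_pos rfl]
  · right; right; right
    rw [h1]
    refine ⟨j, hj, rfl, ?_⟩
    unfold rk
    rw [if_neg (univ_nonempty.ne_empty), if_pos rfl]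

theorem rk_range {k : ℕ} (hk : 2 ≤ k) (hX : 2 ≤ Fintype.card X) {N : Set ι}
    {w B : ι → Finset Y} {p : (Finset X × Finset Y) × ℕ}
    (hp : p ∈ baseFam k N w B) (hs : ¬ special p) : 1 ≤ rk k p ∧ rk k p ≤ k - 1 := by
  rcases rk_facts hk hX hp hs with ⟨i, A, h1, h2, h3, h4⟩ | ⟨i, A, h1, h2, h3, h4⟩ |
    ⟨j, hj, h1, h4⟩ | ⟨j, hj, h1, h4⟩ <;> rw [h4] <;> omega

theorem rk_lt {k : ℕ} (hk : 2 ≤ k) (hX : 2 ≤ Fintype.card X) {N : Set ι}
    {w B : ι → Finset Y} (hw : ∀ j, (w j).card = 2) (hB : ∀ j, (B j).card = k - 1)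
    {p q : (Finset X × Finset Y) × ℕ}
    (hp : p ∈ baseFam k N w B) (hs : ¬ special p) (hq : q ∈ baseFam k N w B) (hs' : ¬ special q)
    (hpq : p ≤ q) (hne : p ≠ q) : rk k p < rk k q := by
  have hXne : Nonempty X := Fintype.card_pos_iff.1 (by omega)
  rcases rk_facts hk hX hp hs with ⟨i, A, h1, h2, h3, h4⟩ | ⟨i, A, h1, h2, h3, h4⟩ |
    ⟨j, hj, h3, h4⟩ | ⟨j, hj, h3, h4⟩ <;>
  rcases rk_facts hk hX hq hs' with ⟨i', A', h1', h2', h3', h4'⟩ | ⟨i', A', h1', h2', h3', h4'⟩ |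
    ⟨j', hj', h3', h4'⟩ | ⟨j', hj', h3', h4'⟩ <;>
  rw [h4, h4'] <;> rw [h3, h3'] at hpq hne <;> obtain ⟨⟨h5, h6⟩, h7⟩ := hpq <;>
  simp only at h5 h6 h7
  · rw [singleton_subset_iff, mem_singleton] at h5
    subst h5
    have h8 : A.card < A'.card := by
      apply card_lt_card
      rw [ssubset_iff_subset_ne]
      refine ⟨h6, fun h => hne (by rw [h])⟩
    omega
  · have := card_le_card h6
    omega
  · rw [singleton_subset_iff] at h5
    simp at h5
  · have := card_le_card h6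
    rw [hB] at this
    omega
  · omega
  · rw [singleton_subset_iff, mem_singleton] at h5
    subst h5
    have h8 : A.card < A'.card := by
      apply card_lt_card
      rw [ssubset_iff_subset_ne]
      refine ⟨h6, fun h => hne (by rw [h])⟩
    omega
  · rw [singleton_subset_iff] at h5
    simp at h5
  · omega
  · omega
  · have := card_le_card h6
    rw [hw] at this
    omega
  · exfalso
    apply hne
    have h8 := eq_of_subset_of_card_le h6 (by rw [hw, hw])
    rw [h8]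
  · omega
  · exfalso
    exact single_ne_univ hX i' (univ_subset_iff.1 h5)
  · exfalso
    exact single_ne_univ hX i' (univ_subset_iff.1 h5)
  · exfalso
    exact univ_nonempty.ne_empty (subset_empty.1 h5)
  · exfalso
    apply hne
    have h8 := eq_of_subset_of_card_le h6 (by rw [hB, hB])
    rw [h8]

end

theorem base_free {ι Y : Type} [Fintype ι] [DecidableEq ι] [Fintype Y] [DecidableEq Y]
    {l : ι → ℕ} {k : ℕ} (hk : 2 ≤ k) (hX : 2 ≤ Fintype.card {j // l j = k})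
    {w B : ι → Finset Y} (hw : ∀ j, (w j).card = 2) (hB : ∀ j, (B j).card = k - 1)
    (m0 : ι) (hm0 : l m0 = 1) :
    ¬ Cp l (baseFam (X := {j // l j = k}) k {j | l j = 1 ∧ j ≠ m0} w B) := by
  classical
  rintro ⟨c, hc⟩
  have hXne : Nonempty {j // l j = k} := Fintype.card_pos_iff.1 (by omega)
  -- special elements
  have h1 : ∀ j : {j // l j = k}, ∃ s ∈ c j.1, special s := by
    intro j
    by_contra hcon
    push Not at hcon
    have h2 : (c j.1).card ≤ (Icc 1 (k - 1)).card := by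
      apply card_le_card_of_injOn (rk k)
      · intro x hx
        rw [coe_Icc, Set.mem_Icc]
        exact rk_range hk hX (hc.sub j.1 x hx) (hcon x hx)
      · intro x hx y hy hxy
        by_contra hne
        rcases hc.chain j.1 x hx y hy with h | h
        · exact (rk_lt hk hX hw hB (hc.sub j.1 x hx) (hcon x hx) (hc.sub j.1 y hy) (hcon y hy) h
            hne).ne hxy
        · exact (rk_lt hk hX hw hB (hc.sub j.1 y hy) (hcon y hy) (hc.sub j.1 x hx) (hcon x hx) h
            (Ne.symm hne)).ne hxy.symm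
    rw [hc.card, j.2, Nat.card_Icc] at h2
    omega
  choose s hs f hf using h1
  have hlev : ∀ p ∈ baseFam (X := {j // l j = k}) k {j | l j = 1 ∧ j ≠ m0} w B, p.2 ≤ 2 := by
    rintro p (⟨i, -, h, -⟩ | ⟨i, -, h, -⟩ | ⟨j, -, rfl⟩ | ⟨j, -, rfl⟩) <;> omega
  -- comparable with everything over the same point
  have hcomp : ∀ j : {j // l j = k}, ∀ p : (Finset {j // l j = k} × Finset Y) × ℕ,
      p.1.1 = {f j} → p.2 ≤ 2 → s j ≤ p ∨ p ≤ s j := by
    intro j p hp hp2
    rcases hf j with h | h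
    · left
      rw [h]
      refine ⟨⟨?_, ?_⟩, ?_⟩
      · simp only; rw [hp]
      · exact empty_subset _
      · exact Nat.zero_le _
    · right
      rw [h]
      refine ⟨⟨?_, ?_⟩, ?_⟩
      · simp only; rw [hp]
      · exact subset_univ _
      · exact hp2
  have hfi : Function.Injective f := by
    intro j j' hjj
    by_contra hne
    have hne' : j.1 ≠ j'.1 := fun h => hne (Subtype.ext h)
    have h2 : (s j').1.1 = {f j} := by
      rw [hjj]
      rcases hf j' with h | h <;> rw [h]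
    rcases hcomp j (s j') h2 (hlev _ (hc.sub _ _ (hs j'))) with h | h
    · exact hc.inc j.1 j'.1 hne' _ (hs j) _ (hs j') h
    · exact hc.inc j'.1 j.1 hne'.symm _ (hs j') _ (hs j) h
  have hfs : Function.Surjective f := Finite.surjective_of_injective hfi
  -- the points
  have h3 : ∀ m, l m = 1 → ∃ x ∈ c m, (∃ j, (l j = 1 ∧ j ≠ m0) ∧ x = ((∅, w j), 2)) ∨
      (∃ j, (l j = 1 ∧ j ≠ m0) ∧ x = ((univ, B j), 0)) := by
    intro m hm
    have h4 := hc.card m
    rw [hm, card_eq_one] at h4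
    obtain ⟨x, hx⟩ := h4
    have hxm : x ∈ c m := by rw [hx]; simp
    refine ⟨x, hxm, ?_⟩
    have hxF := hc.sub m x hxm
    have hx2 := hlev x hxF
    have hno : ∀ i, x.1.1 ≠ {i} := by
      intro i hi
      obtain ⟨j, rfl⟩ := hfs i
      have hjm : j.1 ≠ m := by
        intro h
        have := j.2
        rw [h, hm] at this
        omega
      rcases hcomp j x hi hx2 with h | h
      · exact hc.inc j.1 m hjm _ (hs j) _ hxm h
      · exact hc.inc m j.1 hjm.symm _ hxm _ (hs j) h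
    rcases hxF with ⟨i, h, -⟩ | ⟨i, h, -⟩ | ⟨j, hj, h⟩ | ⟨j, hj, h⟩
    · exact absurd h (hno i)
    · exact absurd h (hno i)
    · exact Or.inl ⟨j, hj, h⟩
    · exact Or.inr ⟨j, hj, h⟩
  -- counting
  have hcount : ∀ g : {m // l m = 1} → {m // l m = 1}, Function.Injective g →
      (∀ m, (g m).1 ≠ m0) → False := by
    intro g hg hg'
    obtain ⟨m, hm⟩ := Finite.surjective_of_injective hg ⟨m0, hm0⟩
    exact hg' m (by rw [hm])
  obtain ⟨j0⟩ := hXne
  have hj0m : ∀ m, l m = 1 → j0.1 ≠ m := by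
    intro m hm h
    have := j0.2
    rw [h, hm] at this
    omega
  rcases hf j0 with h5 | h5
  · have h6 : ∀ m : {m // l m = 1}, ∃ j : {m // l m = 1}, j.1 ≠ m0 ∧
        (((∅, w j.1), 2) : (Finset {j // l j = k} × Finset Y) × ℕ) ∈ c m.1 := by
      intro m
      obtain ⟨x, hx, ⟨j, hj, h⟩ | ⟨j, hj, h⟩⟩ := h3 m.1 m.2
      · exact ⟨⟨j, hj.1⟩, hj.2, h ▸ hx⟩
      · exfalso
        apply hc.inc j0.1 m.1 (hj0m m.1 m.2) _ (hs j0) _ hx
        rw [h5, h]
        exact ⟨⟨subset_univ _, empty_subset _⟩, le_rfl⟩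
    choose g hg hg' using h6
    refine hcount g ?_ hg
    intro a b hab
    by_contra hne
    have h7 := hg' b
    rw [← hab] at h7
    exact hc.inc a.1 b.1 (fun h => hne (Subtype.ext h)) _ (hg' a) _ h7 le_rfl
  · have h6 : ∀ m : {m // l m = 1}, ∃ j : {m // l m = 1}, j.1 ≠ m0 ∧
        (((univ, B j.1), 0) : (Finset {j // l j = k} × Finset Y) × ℕ) ∈ c m.1 := by
      intro m
      obtain ⟨x, hx, ⟨j, hj, h⟩ | ⟨j, hj, h⟩⟩ := h3 m.1 m.2
      · exfalso
        apply hc.inc m.1 j0.1 (hj0m m.1 m.2).symm _ hx _ (hs j0)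
        rw [h5, h]
        exact ⟨⟨empty_subset _, subset_univ _⟩, le_rfl⟩
      · exact ⟨⟨j, hj.1⟩, hj.2, h ▸ hx⟩
    choose g hg hg' using h6
    refine hcount g ?_ hg
    intro a b hab
    by_contra hne
    have h7 := hg' b
    rw [← hab] at h7
    exact hc.inc a.1 b.1 (fun h => hne (Subtype.ext h)) _ (hg' a) _ h7 le_rfl

end Pool.Agent.Q110.BS
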