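import Pool.Agent.Q110.BS.Make

/-!
# The base family: every generic set completes a copy (the seven cases)
-/

set_option autoImplicit false

open Finset

namespace Pool.Agent.Q110.BS

theorem base_make {ι Y : Type} [Fintype ι] [DecidableEq ι] [Fintype Y] [DecidableEq Y]
    {l : ι → ℕ} {k : ℕ} (hk : 2 ≤ k) (hl : ∀ j, l j = k ∨ l j = 1 ∨ l j = 0)
    (hX : 2 ≤ Fintype.card {j // l j = k}) (hY : k + Fintype.card ι ≤ Fintype.card Y)
    {w B : ι → Finset Y} (hw : ∀ j, (w j).card = 2) (hB : ∀ j, (B j).card = k - 1)
    (hwi : Function.Injective w) (hBi : Function.Injective B)
    (m0 : ι) (hm0 : l m0 = 1) (t : Finset {j // l j = k} × Finset Y) :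
    ∃ c, Cpy l (insert (t, 1) (baseFam k {j | l j = 1 ∧ j ≠ m0} w B)) c ∧
      ∃ e : Finset {j // l j = k} × Finset Y,
      ∀ j, ∀ p ∈ c j, (p.2 = 0 → ¬ p.1 ≤ e) ∧ (p.2 = 2 → ¬ e ≤ p.1) := by
  classical
  obtain ⟨tX, tY⟩ := t
  have hkY : k < Fintype.card Y := by
    have : 0 < Fintype.card ι := Fintype.card_pos_iff.2 ⟨m0⟩
    omega
  obtain ⟨T, hTm, hTc, hTs, hTs'⟩ := exists_chain tY
  have hT : ∀ n, n ≤ k → (T n).card = n := fun n hn => hTc n (by omega)
  obtain ⟨g0⟩ : Nonempty (ι ↪ {y // y ∉ T k}) := by
    apply Function.Embedding.nonempty_of_card_le
    rw [Fintype.card_subtype]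
    have : (univ.filter (fun y => y ∉ T k)) = (T k)ᶜ := by ext; simp
    rw [this, card_compl, hT k le_rfl]
    omega
  obtain ⟨g, hgi, hg⟩ : ∃ g : ι → Y, Function.Injective g ∧ ∀ j n, n ≤ k → g j ∉ T n :=
    ⟨fun j => (g0 j).1, fun a b h => g0.injective (Subtype.ext h),
      fun j n hn h => (g0 j).2 (hTm hn h)⟩
  clear g0
  have hneU : ∀ (S : Finset Y), S.card ≤ k → S ≠ univ := by
    intro S hS h
    rw [h, card_univ] at hS
    omega
  -- two systems of points
  have hAc : ∀ j, (insert (g j) (T 1)).card = 2 := by
    intro j
    rw [card_insert_of_notMem (hg j 1 (by omega)), hT 1 (by omega)]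
  have hAinj : ∀ j j', insert (g j) (T 1) ⊆ insert (g j') (T 1) → j = j' := by
    intro j j' h
    have h1 := h (mem_insert_self _ _)
    rw [mem_insert] at h1
    rcases h1 with h1 | h1
    · exact hgi h1
    · exact absurd h1 (hg j 1 (by omega))
  have hXne : Nonempty {j // l j = k} := Fintype.card_pos_iff.1 (by omega)
  rcases tX.eq_empty_or_nonempty with rfl | htX
  · -- case A
    obtain ⟨j1⟩ := hXne
    by_cases hA1 : ∀ j, l j = 1 → j ≠ m0 → ¬ tY ⊆ w j
    · apply case_low hk hl hTm hT (∅, tY) j1 (lowC T j1)
        (fun j => if j = m0 then ((∅, tY), 1) else ((∅, w j), 2))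
      · intro a ha
        exact Or.inr (lowC_mem hT j1 ha)
      · intro a b hab hb
        exact lowC_lt hTm hT j1 hab hb
      · intro j hj
        split_ifs with h
        · exact Or.inl rfl
        · exact Or.inr (Or.inr (Or.inr (Or.inl ⟨j, ⟨hj, h⟩, rfl⟩)))
      · intro j j' hj hj' hne
        split_ifs with h h' h'
        · exact absurd (h.trans h'.symm) hne
        · rw [le3]
          rintro ⟨-, h1, -⟩
          exact hA1 j' hj' h' h1
        · rw [le3]
          rintro ⟨-, -, h1⟩
          omega
        · rw [le3]
          rintro ⟨-, h1, -⟩
          exact hne (hwi (eq_of_subset_of_card_le h1 (by rw [hw, hw])))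
      · intro a j ha hj
        unfold lowC
        split_ifs with h1 h2 h2
        all_goals
          rw [le3, le3]
          refine ⟨?_, ?_⟩
          · rintro ⟨h3, -, -⟩
            rw [singleton_subset_iff] at h3
            simp at h3
          · rintro ⟨-, -, h3⟩
            omega
      · intro a ha
        unfold lowC
        refine ⟨subset_rfl, fun _ => singleton_ne_empty _, fun h => ?_⟩
        simp at h
      · intro j hj
        split_ifs with h
        · exact ⟨empty_subset _, fun h => by simp at h, fun h => by simp at h⟩
        · exact ⟨empty_subset _, fun h => by simp at h, fun _ => hneU _ (by rw [hw]; exact hk)⟩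
    · push Not at hA1
      obtain ⟨j2, hj2, hj2', hsub⟩ := hA1
      obtain ⟨mX, mY, hm, hmX, hmt, hmT, hmne⟩ : ∃ (mX : Finset {j // l j = k}) (mY : Finset Y),
          ((mX, mY), 2) ∈ baseFam k {j | l j = 1 ∧ j ≠ m0} w B ∧ mX ⊆ {j1} ∧ tY ⊆ mY ∧
          mY ⊆ T 2 ∧ ({j1} = mX → mY.card < 2) := by
        by_cases hc : tY.card ≤ 1
        · refine ⟨{j1}, T 1, mem_base2 _ (Or.inr ?_), subset_rfl, hTs' 1 hc, hTm (by omega),
            fun _ => ?_⟩
          · rw [hT 1 (by omega)]
            omega
          · rw [hT 1 (by omega)]
            omega
        · have h2 : tY = w j2 := eq_of_subset_of_card_le hsub (by rw [hw]; omega)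
          refine ⟨∅, w j2, Or.inr (Or.inr (Or.inl ⟨j2, ⟨hj2, hj2'⟩, rfl⟩)), empty_subset _, hsub,
            ?_, fun h => absurd h (singleton_ne_empty _)⟩
          rw [← h2]
          exact hTs' 2 (by rw [h2, hw])
      apply case_low hk hl hTm hT (∅, tY) j1
        (fun a => if a = 0 then ((∅, tY), 1) else if a = 1 then ((mX, mY), 2) else (({j1}, T a), 2))
        (fun j => (({j1}, insert (g j) (T 1)), 0))
      · intro a ha
        split_ifs with h h'
        · exact Or.inl rfl
        · exact Or.inr hm
        · refine Or.inr (mem_base2 _ (Or.inr ?_))
          rw [hT a (by omega)]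
          omega
      · intro a b hab hb
        by_cases h0 : a = 0
        · by_cases h1 : b = 1
          · rw [if_pos h0, if_neg (by omega), if_pos h1]
            exact lt3 (empty_subset _) hmt (by omega) (fun _ h => by omega)
          · rw [if_pos h0, if_neg (by omega), if_neg h1]
            exact lt3 (empty_subset _) (hmt.trans (hmT.trans (hTm (by omega)))) (by omega)
              (fun _ h => by omega)
        · by_cases h1 : a = 1
          · rw [if_neg h0, if_pos h1, if_neg (by omega), if_neg (by omega)]
            refine lt3 hmX (hmT.trans (hTm (by omega))) le_rfl (fun h _ h' => ?_)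
            have h2 := hmne h.symm
            rw [h', hT b (by omega)] at h2
            omega
          · rw [if_neg h0, if_neg h1, if_neg (by omega), if_neg (by omega)]
            refine lt3 subset_rfl (hTm (by omega)) le_rfl (fun _ _ h' => ?_)
            have := congrArg card h'
            rw [hT b (by omega), hT a (by omega)] at this
            omega
      · intro j hj
        refine Or.inr (mem_base0 _ (Or.inr ?_))
        rw [hAc j]
        omega
      · intro j j' hj hj' hne
        rw [le3]
        rintro ⟨-, h1, -⟩
        exact hne (hAinj j j' h1)
      · intro a j ha hj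
        split_ifs with h h'
        · rw [le3, le3]
          refine ⟨fun h1 => by omega, fun h1 => ?_⟩
          have := h1.1
          rw [singleton_subset_iff] at this
          simp at this
        · rw [le3, le3]
          refine ⟨fun h1 => by omega, fun h1 => ?_⟩
          exact hg j 2 (by omega) (hmT (h1.2.1 (mem_insert_self _ _)))
        · rw [le3, le3]
          refine ⟨fun h1 => by omega, fun h1 => ?_⟩
          exact hg j a (by omega) (h1.2.1 (mem_insert_self _ _))
      · intro a ha
        split_ifs with h h'
        · exact ⟨empty_subset _, fun h => by simp at h, fun h => by simp at h⟩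
        · refine ⟨hmX, fun h => by simp at h, fun _ => hneU _ ?_⟩
          simp only
          have := card_le_card hmT
          rw [hT 2 (by omega)] at this
          omega
        · refine ⟨subset_rfl, fun h => by simp at h, fun _ => hneU _ ?_⟩
          simp only
          rw [hT a (by omega)]
          omega
      · intro j hj
        exact ⟨subset_rfl, fun _ => singleton_ne_empty _, fun h => by simp at h⟩
  · by_cases htX1 : tX.card = 1
    · -- case B
      obtain ⟨i, rfl⟩ := card_eq_one.1 htX1
      set q := min tY.card k - 1 with hq
      apply case_low hk hl hTm hT ({i}, tY) i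
        (fun a => if a < q then (({i}, T (a + 2)), 0) else if a = q then (({i}, tY), 1) else
          (({i}, T a), 2))
        (fun j => if tY = ∅ then (({i}, insert (g j) (T 1)), 0) else (({i}, {g j}), 2))
      · intro a ha
        split_ifs with h h'
        · refine Or.inr (mem_base0 _ (Or.inr ?_))
          rw [hT _ (by omega)]
          omega
        · exact Or.inl rfl
        · refine Or.inr (mem_base2 _ (Or.inr ?_))
          rw [hT _ (by omega)]
          omega
      · intro a b hab hb
        rcases lt_trichotomy a q with h | h | h
        · rcases lt_trichotomy b q with h' | h' | h'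
          · rw [if_pos h, if_pos h']
            refine lt3 subset_rfl (hTm (by omega)) le_rfl (fun _ _ h' => ?_)
            have := congrArg card h'
            rw [hT _ (by omega), hT _ (by omega)] at this
            omega
          · rw [if_pos h, if_neg (by omega), if_pos h']
            exact lt3 subset_rfl (hTs _ (by omega)) (by omega) (fun _ h => by omega)
          · rw [if_pos h, if_neg (by omega), if_neg (by omega)]
            exact lt3 subset_rfl (hTm (by omega)) (by omega) (fun _ h => by omega)
        · rw [if_neg (by omega), if_pos h, if_neg (by omega), if_neg (by omega)]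
          exact lt3 subset_rfl (hTs' _ (by omega)) (by omega) (fun _ h => by omega)
        · rw [if_neg (by omega), if_neg (by omega), if_neg (by omega), if_neg (by omega)]
          refine lt3 subset_rfl (hTm (by omega)) le_rfl (fun _ _ h' => ?_)
          have := congrArg card h'
          rw [hT _ (by omega), hT _ (by omega)] at this
          omega
      · intro j hj
        split_ifs with h
        · refine Or.inr (mem_base0 _ (Or.inr ?_))
          rw [hAc j]
          omega
        · refine Or.inr (mem_base2 _ (Or.inr ?_))
          rw [card_singleton]
          omega
      · intro j j' hj hj' hne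
        split_ifs with h
        · rw [le3]
          rintro ⟨-, h1, -⟩
          exact hne (hAinj j j' h1)
        · rw [le3]
          rintro ⟨-, h1, -⟩
          rw [singleton_subset_iff, mem_singleton] at h1
          exact hne (hgi h1)
      · intro a j ha hj
        by_cases hY0 : tY = ∅
        · have hq0 : q = 0 := by rw [hq, hY0, card_empty]; omega
          rw [if_neg (by omega : ¬ a < q), if_pos hY0]
          split_ifs with h
          · rw [le3, le3]
            refine ⟨fun h1 => by omega, fun h1 => ?_⟩
            have := h1.2.1 (mem_insert_self _ _)
            rw [hY0] at this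
            simp at this
          · rw [le3, le3]
            refine ⟨fun h1 => by omega, fun h1 => ?_⟩
            exact hg j a (by omega) (h1.2.1 (mem_insert_self _ _))
        · rw [if_neg hY0]
          have hY1 : 1 ≤ tY.card := card_pos.2 (nonempty_iff_ne_empty.2 hY0)
          split_ifs with h h'
          · rw [le3, le3]
            refine ⟨fun h1 => ?_, fun h1 => by omega⟩
            have := card_le_card h1.2.1
            rw [hT _ (by omega), card_singleton] at this
            omega
          · rw [le3, le3]
            refine ⟨fun h1 => ?_, fun h1 => by omega⟩
            have h2 : tY = {g j} := eq_of_subset_of_card_le h1.2.1 (by rw [card_singleton]; omega)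
            have h3 : tY ⊆ T 1 := hTs' 1 (by rw [h2, card_singleton])
            rw [h2, singleton_subset_iff] at h3
            exact hg j 1 (by omega) h3
          · rw [le3, le3]
            refine ⟨fun h1 => ?_, fun h1 => ?_⟩
            · have h2 : (T a).Nonempty := by
                rw [← card_pos, hT a (by omega)]
                omega
              obtain ⟨y, hy⟩ := h2
              have h3 := h1.2.1 hy
              rw [mem_singleton] at h3
              rw [h3] at hy
              exact hg j a (by omega) hy
            · have h2 := h1.2.1
              rw [singleton_subset_iff] at h2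
              exact hg j a (by omega) h2
      · intro a ha
        split_ifs with h h'
        · exact ⟨subset_rfl, fun _ => singleton_ne_empty _, fun h => by simp at h⟩
        · exact ⟨subset_rfl, fun _ => singleton_ne_empty _, fun h => by simp at h⟩
        · refine ⟨subset_rfl, fun _ => singleton_ne_empty _, fun _ => hneU _ ?_⟩
          simp only
          rw [hT a (by omega)]
          omega
      · intro j hj
        split_ifs with h
        · exact ⟨subset_rfl, fun _ => singleton_ne_empty _, fun h => by simp at h⟩
        · refine ⟨subset_rfl, fun _ => singleton_ne_empty _, fun _ => hneU _ ?_⟩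
          simp only
          rw [card_singleton]
          omega
    · -- case C
      have htX2 : 2 ≤ tX.card := by
        have := card_pos.2 htX
        omega
      by_cases hC1 : ∀ j, l j = 1 → j ≠ m0 → ¬ (tX = univ ∧ B j ⊆ tY)
      · obtain ⟨j1, hj1⟩ := htX
        apply case_upp hk hl hX hkY hTm hT (tX, tY) j1 (uppC k T j1)
          (fun j => if j = m0 then ((tX, tY), 1) else ((univ, B j), 0))
        · intro a ha
          exact Or.inr (uppC_mem hT j1 ha)
        · intro a b hab hb
          exact uppC_lt hTm hT hkY j1 hab hb
        · intro j hj
          split_ifs with h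
          · exact Or.inl rfl
          · exact Or.inr (Or.inr (Or.inr (Or.inr ⟨j, ⟨hj, h⟩, rfl⟩)))
        · intro j j' hj hj' hne
          split_ifs with h h' h'
          · exact absurd (h.trans h'.symm) hne
          · rw [le3]
            rintro ⟨-, -, h1⟩
            omega
          · rw [le3]
            rintro ⟨h1, h2, -⟩
            exact hC1 j hj h ⟨univ_subset_iff.1 h1, h2⟩
          · rw [le3]
            rintro ⟨-, h1, -⟩
            exact hne (hBi (eq_of_subset_of_card_le h1 (by rw [hB, hB])))
        · intro a j ha hj
          unfold uppC
          by_cases h1 : j = m0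
          · rw [if_pos h1]
            rw [le3, le3]
            refine ⟨fun h3 => by omega, ?_⟩
            rintro ⟨h3, -, -⟩
            have := card_le_card h3
            rw [card_singleton] at this
            omega
          · rw [if_neg h1]
            rw [le3, le3]
            refine ⟨fun h3 => by omega, ?_⟩
            rintro ⟨h3, -, -⟩
            exact single_ne_univ hX _ (univ_subset_iff.1 h3)
        · intro a ha
          unfold uppC
          refine ⟨mem_singleton_self _, le_rfl, fun h => ?_, fun _ => rfl⟩
          simp at h
        · intro j hj
          split_ifs with h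
          · exact ⟨hj1, by norm_num, fun h => by simp at h, fun h => by simp at h⟩
          · refine ⟨mem_univ _, by norm_num, fun _ h1 => ?_, fun h => by simp at h⟩
            have := congrArg card h1
            simp only at this
            rw [hB, card_empty] at this
            omega
      · push Not at hC1
        obtain ⟨j2, hj2, hj2', rfl, hsub⟩ := hC1
        obtain ⟨j1⟩ := hXne
        obtain ⟨mX, mY, hm, hmX, hmt, hmT, hmne⟩ : ∃ (mX : Finset {j // l j = k}) (mY : Finset Y),
            ((mX, mY), 0) ∈ baseFam k {j | l j = 1 ∧ j ≠ m0} w B ∧ j1 ∈ mX ∧ mY ⊆ tY ∧
            T (k - 1) ⊆ mY ∧ ({j1} = mX → mY.card = k) := by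
          by_cases hc : k ≤ tY.card
          · refine ⟨{j1}, T k, mem_base0 _ (Or.inr ?_), mem_singleton_self _, hTs k hc,
              hTm (by omega), fun _ => hT k le_rfl⟩
            rw [hT k le_rfl]
            omega
          · have h2 : B j2 = tY := eq_of_subset_of_card_le hsub (by rw [hB]; omega)
            refine ⟨univ, B j2, Or.inr (Or.inr (Or.inr ⟨j2, ⟨hj2, hj2'⟩, rfl⟩)), mem_univ _, hsub,
              ?_, fun h => absurd h (single_ne_univ hX _)⟩
            rw [h2]
            exact hTs _ (by rw [← h2, hB])
        apply case_upp hk hl hX hkY hTm hT (univ, tY) j1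
          (fun a => if a = k - 1 then ((univ, tY), 1) else if a = k - 2 then ((mX, mY), 0) else
            (({j1}, T (a + 2)), 0))
          (fun j => (({j1}, {g j}), 2))
        · intro a ha
          split_ifs with h h'
          · exact Or.inl rfl
          · exact Or.inr hm
          · refine Or.inr (mem_base0 _ (Or.inr ?_))
            rw [hT _ (by omega)]
            omega
        · intro a b hab hb
          by_cases h0 : b = k - 1
          · by_cases h1 : a = k - 2
            · rw [if_neg (by omega), if_pos h1, if_pos h0]
              exact lt3 (subset_univ _) hmt (by omega) (fun _ h => by omega)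
            · rw [if_neg (by omega), if_neg h1, if_pos h0]
              exact lt3 (subset_univ _) ((hTm (by omega)).trans (hmT.trans hmt)) (by omega)
                (fun _ h => by omega)
          · by_cases h1 : b = k - 2
            · rw [if_neg (by omega), if_neg (by omega), if_neg h0, if_pos h1]
              refine lt3 (singleton_subset_iff.2 hmX) ((hTm (by omega)).trans hmT) le_rfl
                (fun h _ h' => ?_)
              have h2 := hmne h
              rw [← h', hT _ (by omega)] at h2
              omega
            · rw [if_neg (by omega), if_neg (by omega), if_neg h0, if_neg h1]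
              refine lt3 subset_rfl (hTm (by omega)) le_rfl (fun _ _ h' => ?_)
              have := congrArg card h'
              rw [hT _ (by omega), hT _ (by omega)] at this
              omega
        · intro j hj
          refine Or.inr (mem_base2 _ (Or.inr ?_))
          rw [card_singleton]
          omega
        · intro j j' hj hj' hne
          rw [le3]
          rintro ⟨-, h1, -⟩
          rw [singleton_subset_iff, mem_singleton] at h1
          exact hne (hgi h1)
        · intro a j ha hj
          split_ifs with h h'
          · rw [le3, le3]
            refine ⟨fun h1 => ?_, fun h1 => by omega⟩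
            exact single_ne_univ hX _ (univ_subset_iff.1 h1.1)
          · rw [le3, le3]
            refine ⟨fun h1 => ?_, fun h1 => by omega⟩
            have h2 : mX = {j1} := eq_singleton_iff_unique_mem.2 ⟨hmX, fun x hx =>
              mem_singleton.1 (h1.1 hx)⟩
            have h3 := hmne h2.symm
            have h4 := card_le_card h1.2.1
            rw [card_singleton] at h4
            omega
          · rw [le3, le3]
            refine ⟨fun h1 => ?_, fun h1 => by omega⟩
            have h4 := card_le_card h1.2.1
            rw [card_singleton, hT _ (by omega)] at h4
            omega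
        · intro a ha
          split_ifs with h h'
          · exact ⟨mem_univ _, by norm_num, fun h => by simp at h, fun h => by simp at h⟩
          · refine ⟨hmX, by norm_num, fun _ h1 => ?_, fun h => by simp at h⟩
            simp only at h1
            have := card_le_card hmT
            rw [h1, card_empty, hT _ (by omega)] at this
            omega
          · refine ⟨mem_singleton_self _, by norm_num, fun _ h1 => ?_, fun h => by simp at h⟩
            simp only at h1
            have := congrArg card h1
            rw [card_empty, hT _ (by omega)] at this
            omega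
        · intro j hj
          exact ⟨mem_singleton_self _, le_rfl, fun h => by simp at h, fun _ => rfl⟩

end Pool.Agent.Q110.BS
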