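import Pool.Agent.Q110.BS.Made

/-!
# Unions of chains of unequal lengths: a finite model
-/

set_option autoImplicit false

open Finset

namespace Pool.Agent.Q110.BS

/-- several chains of length `k` and some of length one -/
theorem str_two {ι : Type} [Fintype ι] [DecidableEq ι]
    {l : ι → ℕ} {k : ℕ} (hk : 2 ≤ k) (hl : ∀ j, l j = k ∨ l j = 1 ∨ l j = 0)
    (hX : 2 ≤ Fintype.card {j // l j = k}) (m0 : ι) (hm0 : l m0 = 1) : Str l := by
  classical
  have hk0 : 0 < k := by omega
  let w : ι → Finset (Fin k ⊕ ι) := fun j => {Sum.inl ⟨0, hk0⟩, Sum.inr j}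
  let B : ι → Finset (Fin k ⊕ ι) := fun j => insert (Sum.inr j)
    ((univ.filter (fun x : Fin k => x.1 < k - 2)).map Function.Embedding.inl)
  have hw : ∀ j, (w j).card = 2 := by
    intro j
    exact card_pair (by simp)
  have hB : ∀ j, (B j).card = k - 1 := by
    intro j
    show (insert (Sum.inr j) ((univ.filter (fun x : Fin k => x.1 < k - 2)).map
      Function.Embedding.inl)).card = k - 1
    rw [card_insert_of_notMem (by simp), card_map]
    have h1 : (univ.filter (fun x : Fin k => x.1 < k - 2)).card =
        ((univ : Finset (Fin (k - 2))).map (Fin.castLEEmb (by omega : k - 2 ≤ k))).card := by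
      congr 1
      ext x
      simp only [mem_filter, mem_univ, true_and, mem_map]
      constructor
      · intro hx
        exact ⟨⟨x.1, hx⟩, by ext; rfl⟩
      · rintro ⟨y, rfl⟩
        exact y.2
    rw [h1, card_map, card_univ, Fintype.card_fin]
    omega
  have hwi : Function.Injective w := by
    intro a b h
    have h1 : Sum.inr a ∈ w b := by rw [← h]; simp [w]
    simpa [w] using h1
  have hBi : Function.Injective B := by
    intro a b h
    have h1 : Sum.inr a ∈ B b := by rw [← h]; simp [B]
    simpa [B] using h1
  have hG : Good l (baseFam (X := {j // l j = k}) k {j | l j = 1 ∧ j ≠ m0} w B) := by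
    refine ⟨?_, base_free hk hX hw hB m0 hm0, ?_⟩
    · rintro p (⟨i, -, h, -⟩ | ⟨i, -, h, -⟩ | ⟨j, -, rfl⟩ | ⟨j, -, rfl⟩)
      · exact Or.inl h
      · exact Or.inr h
      · exact Or.inr rfl
      · exact Or.inl rfl
    · exact base_make hk hl hX (by rw [Fintype.card_sum, Fintype.card_fin]) hw hB hwi hBi m0 hm0
  exact ⟨_, inferInstance, inferInstance, _, hG.transport Finset.sumEquiv.symm⟩

theorem Str.steps {ι : Type} [Fintype ι] (c : ℕ) :
    ∀ l : ι → ℕ, Str (fun j => l j - c) → Str l := by
  induction c with
  | zero => intro l h; simpa using h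
  | succ c ih =>
    intro l h
    apply ih
    apply Str.step
    have : (fun j => l j - c - 1) = fun j => l j - (c + 1) := by
      funext j; omega
    rw [this]
    exact h

/-- **Main statement on the model.** -/
theorem str_main {ι : Type} [Fintype ι] {l : ι → ℕ} (hpos : ∀ j, 1 ≤ l j)
    (hne : ∃ a b, l a ≠ l b) : Str l := by
  classical
  obtain ⟨a, b, hab⟩ := hne
  obtain ⟨jm, -, hjm⟩ := exists_max_image (univ : Finset ι) l ⟨a, mem_univ a⟩
  have hmax : ∀ j, l j ≤ l jm := fun j => hjm j (mem_univ j)
  by_cases huniq : ∀ j, j ≠ jm → l j ≠ l jm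
  · apply Str.steps (l jm - 1)
    apply str_one jm
    · have := hpos jm
      omega
    · intro j hj
      have h1 := huniq j hj
      have h2 := hmax j
      omega
  · push Not at huniq
    obtain ⟨j', hj', hj'm⟩ := huniq
    have hS : (univ.filter (fun j => l j < l jm)).Nonempty := by
      rcases lt_or_ge (l a) (l jm) with h | h
      · exact ⟨a, by simpa using h⟩
      · refine ⟨b, ?_⟩
        have h1 := hmax a
        have h2 := hmax b
        simp only [mem_filter, mem_univ, true_and]
        omega
    obtain ⟨js, hjs, hjs'⟩ := exists_max_image _ l hS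
    have hjs1 : l js < l jm := (mem_filter.1 hjs).2
    have hjs2 : ∀ j, l j < l jm → l j ≤ l js := fun j hj => hjs' j (by simpa using hj)
    have hp := hpos js
    apply Str.steps (l js - 1)
    have hiff : ∀ j, l j - (l js - 1) = l jm - (l js - 1) ↔ l j = l jm := by
      intro j
      have := hmax j
      have := hpos j
      constructor
      · intro h
        omega
      · intro h
        rw [h]
    refine str_two (k := l jm - (l js - 1)) (by omega) ?_ ?_ js (by omega)
    · intro j
      have h1 := hmax j
      by_cases h2 : l j = l jm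
      · left
        rw [h2]
      · have h3 := hjs2 j (by omega)
        omega
    · rw [Fintype.card_subtype, show (2 : ℕ) = ({jm, j'} : Finset ι).card from
        (card_pair hj'.symm).symm]
      apply card_le_card
      intro x hx
      rw [mem_insert, mem_singleton] at hx
      simp only [mem_filter, mem_univ, true_and]
      rcases hx with rfl | rfl
      · rfl
      · rw [hj'm]

end Pool.Agent.Q110.BS
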