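import Pool.Agent.Q110.BS.Free

/-!
# The base family: every generic set completes a copy
-/

set_option autoImplicit false

open Finset

namespace Pool.Agent.Q110.BS

theorem le3 {X Y : Type} {a a' : Finset X} {b b' : Finset Y} {i i' : ℕ} :
    (((a, b), i) : (Finset X × Finset Y) × ℕ) ≤ ((a', b'), i') ↔ a ⊆ a' ∧ b ⊆ b' ∧ i ≤ i' := by
  constructor
  · rintro ⟨⟨h1, h2⟩, h3⟩
    exact ⟨h1, h2, h3⟩
  · rintro ⟨h1, h2, h3⟩
    exact ⟨⟨h1, h2⟩, h3⟩

theorem lt3 {X Y : Type} {a a' : Finset X} {b b' : Finset Y} {i i' : ℕ}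
    (h1 : a ⊆ a') (h2 : b ⊆ b') (h3 : i ≤ i') (h : a = a' → i = i' → b ≠ b') :
    (((a, b), i) : (Finset X × Finset Y) × ℕ) < ((a', b'), i') := by
  refine lt_of_le_of_ne (le3.2 ⟨h1, h2, h3⟩) ?_
  intro h4
  simp only [Prod.mk.injEq] at h4
  exact h h4.1.1 h4.2 h4.1.2

section
variable {ι X Y : Type} [Fintype ι] [DecidableEq ι] [Fintype X] [DecidableEq X] [Fintype Y]
  [DecidableEq Y]

theorem mem_base0 {k : ℕ} {N : Set ι} {w B : ι → Finset Y} (i : X) {A : Finset Y}
    (hA : A = ∅ ∨ (2 ≤ A.card ∧ A.card ≤ k)) : (({i}, A), 0) ∈ baseFam k N w B :=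
  Or.inl ⟨i, rfl, rfl, hA⟩

theorem mem_base2 {k : ℕ} {N : Set ι} {w B : ι → Finset Y} (i : X) {A : Finset Y}
    (hA : A = univ ∨ (1 ≤ A.card ∧ A.card ≤ k - 1)) : (({i}, A), 2) ∈ baseFam k N w B :=
  Or.inr (Or.inl ⟨i, rfl, rfl, hA⟩)

/-- lower standard chain -/
def lowC (T : ℕ → Finset Y) (i : X) (a : ℕ) : (Finset X × Finset Y) × ℕ :=
  (({i}, if a = 0 then ∅ else T (a + 1)), 0)

/-- upper standard chain -/
def uppC (k : ℕ) (T : ℕ → Finset Y) (i : X) (a : ℕ) : (Finset X × Finset Y) × ℕ :=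
  (({i}, if a + 1 < k then T (a + 1) else univ), 2)

theorem lowC_mem {k : ℕ} {N : Set ι} {w B : ι → Finset Y} {T : ℕ → Finset Y}
    (hT : ∀ n, n ≤ k → (T n).card = n) (i : X) {a : ℕ} (ha : a < k) :
    lowC T i a ∈ baseFam k N w B := by
  apply mem_base0
  split_ifs with h
  · exact Or.inl rfl
  · right
    rw [hT _ (by omega)]
    omega

theorem uppC_mem {k : ℕ} {N : Set ι} {w B : ι → Finset Y} {T : ℕ → Finset Y}
    (hT : ∀ n, n ≤ k → (T n).card = n) (i : X) {a : ℕ} (ha : a < k) :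
    uppC k T i a ∈ baseFam k N w B := by
  apply mem_base2
  split_ifs with h
  · right
    rw [hT _ (by omega)]
    omega
  · exact Or.inl rfl

theorem lowC_lt {k : ℕ} {T : ℕ → Finset Y} (hTm : Monotone T)
    (hT : ∀ n, n ≤ k → (T n).card = n) (i : X) {a b : ℕ} (hab : a < b) (hb : b < k) :
    lowC T i a < lowC T i b := by
  unfold lowC
  apply lt3 subset_rfl ?_ le_rfl
  · intro _ _ h
    have := congrArg card h
    rw [if_neg (by omega : b ≠ 0), hT _ (by omega)] at this
    split_ifs at this with h0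
    · rw [card_empty] at this; omega
    · rw [hT _ (by omega)] at this; omega
  · rw [if_neg (by omega : b ≠ 0)]
    split_ifs with h0
    · exact empty_subset _
    · exact hTm (by omega)

theorem uppC_lt {k : ℕ} {T : ℕ → Finset Y} (hTm : Monotone T)
    (hT : ∀ n, n ≤ k → (T n).card = n) (hY : k < Fintype.card Y) (i : X) {a b : ℕ} (hab : a < b)
    (hb : b < k) : uppC k T i a < uppC k T i b := by
  unfold uppC
  apply lt3 subset_rfl ?_ le_rfl
  · intro _ _ h
    have := congrArg card h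
    rw [if_pos (by omega : a + 1 < k), hT _ (by omega)] at this
    split_ifs at this with h0
    · rw [hT _ (by omega)] at this; omega
    · rw [card_univ] at this; omega
  · rw [if_pos (by omega : a + 1 < k)]
    split_ifs with h0
    · exact hTm (by omega)
    · exact subset_univ _

end

/-- all chains but one are lower standard chains -/
theorem case_low {ι Y : Type} [Fintype ι] [DecidableEq ι] [Fintype Y] [DecidableEq Y]
    {l : ι → ℕ} {k : ℕ} (hk : 2 ≤ k) (hl : ∀ j, l j = k ∨ l j = 1 ∨ l j = 0)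
    {w B : ι → Finset Y} {N : Set ι} {T : ℕ → Finset Y} (hTm : Monotone T)
    (hT : ∀ n, n ≤ k → (T n).card = n)
    (t : Finset {j // l j = k} × Finset Y) (j1 : {j // l j = k})
    (f : ℕ → (Finset {j // l j = k} × Finset Y) × ℕ)
    (pt : ι → (Finset {j // l j = k} × Finset Y) × ℕ)
    (h1 : ∀ a, a < k → f a ∈ insert (t, 1) (baseFam k N w B))
    (h2 : ∀ a b, a < b → b < k → f a < f b)
    (h4 : ∀ j, l j = 1 → pt j ∈ insert (t, 1) (baseFam k N w B))
    (h5 : ∀ j j', l j = 1 → l j' = 1 → j ≠ j' → ¬ pt j ≤ pt j')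
    (h6 : ∀ a j, a < k → l j = 1 → ¬ f a ≤ pt j ∧ ¬ pt j ≤ f a)
    (h7 : ∀ a, a < k → (f a).1.1 ⊆ {j1} ∧ ((f a).2 = 0 → (f a).1.1 ≠ ∅) ∧
      ((f a).2 = 2 → (f a).1.2 ≠ univ))
    (h8 : ∀ j, l j = 1 → (pt j).1.1 ⊆ {j1} ∧ ((pt j).2 = 0 → (pt j).1.1 ≠ ∅) ∧
      ((pt j).2 = 2 → (pt j).1.2 ≠ univ)) :
    ∃ c, Cpy l (insert (t, 1) (baseFam k N w B)) c ∧ ∃ e : Finset {j // l j = k} × Finset Y,
      ∀ j, ∀ p ∈ c j, (p.2 = 0 → ¬ p.1 ≤ e) ∧ (p.2 = 2 → ¬ e ≤ p.1) := by
  classical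
  have key : ∀ (i : {j // l j = k}) (a : ℕ) (p : (Finset {j // l j = k} × Finset Y) × ℕ),
      i ≠ j1 → p.1.1 ⊆ {j1} → (p.2 = 0 → p.1.1 ≠ ∅) → ¬ lowC T i a ≤ p ∧ ¬ p ≤ lowC T i a := by
    intro i a p hi hp hp0
    unfold lowC
    constructor
    · intro h
      have h9 := h.1.1
      simp only at h9
      have h10 := hp (h9 (mem_singleton_self i))
      rw [mem_singleton] at h10
      exact hi h10
    · intro h
      have h9 := h.1.1
      have h10 := h.2
      simp only at h9 h10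
      apply hp0 (by omega)
      rw [eq_empty_iff_forall_notMem]
      intro x hx
      have h11 := h9 hx
      have h12 := hp hx
      rw [mem_singleton] at h11 h12
      exact hi (h11.symm.trans h12)
  apply exists_copy hk hl _ (∅, univ) (fun i => if i = j1 then f else lowC T i) pt
  · intro i a ha
    split_ifs with h
    · exact h1 a ha
    · exact Or.inr (lowC_mem hT i ha)
  · intro i a b hab hb
    split_ifs with h
    · exact h2 a b hab hb
    · exact lowC_lt hTm hT i hab hb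
  · intro i i' hii a b ha hb
    split_ifs with h h' h'
    · exact absurd (h.trans h'.symm) hii
    · exact (key i' b (f a) h' (h7 a ha).1 (h7 a ha).2.1).2
    · exact (key i a (f b) h (h7 b hb).1 (h7 b hb).2.1).1
    · intro h9
      have h10 := h9.1.1
      unfold lowC at h10
      simp only at h10
      rw [singleton_subset_iff, mem_singleton] at h10
      exact hii h10
  · exact h4
  · exact h5
  · intro i a j ha hj
    split_ifs with h
    · exact h6 a j ha hj
    · exact key i a (pt j) h (h8 j hj).1 (h8 j hj).2.1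
  · intro i a ha
    split_ifs with h
    · refine ⟨fun h9 h10 => ?_, fun h9 h10 => ?_⟩
      · exact (h7 a ha).2.1 h9 (subset_empty.1 h10.1)
      · exact (h7 a ha).2.2 h9 (univ_subset_iff.1 h10.2)
    · refine ⟨fun h9 h10 => ?_, fun h9 h10 => ?_⟩
      · have := h10.1
        unfold lowC at this
        simp at this
      · unfold lowC at h9
        simp at h9
  · intro j hj
    refine ⟨fun h9 h10 => ?_, fun h9 h10 => ?_⟩
    · exact (h8 j hj).2.1 h9 (subset_empty.1 h10.1)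
    · exact (h8 j hj).2.2 h9 (univ_subset_iff.1 h10.2)

/-- all chains but one are upper standard chains -/
theorem case_upp {ι Y : Type} [Fintype ι] [DecidableEq ι] [Fintype Y] [DecidableEq Y]
    {l : ι → ℕ} {k : ℕ} (hk : 2 ≤ k) (hl : ∀ j, l j = k ∨ l j = 1 ∨ l j = 0)
    (hX : 2 ≤ Fintype.card {j // l j = k}) (hY : k < Fintype.card Y)
    {w B : ι → Finset Y} {N : Set ι} {T : ℕ → Finset Y} (hTm : Monotone T)
    (hT : ∀ n, n ≤ k → (T n).card = n)
    (t : Finset {j // l j = k} × Finset Y) (j1 : {j // l j = k})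
    (f : ℕ → (Finset {j // l j = k} × Finset Y) × ℕ)
    (pt : ι → (Finset {j // l j = k} × Finset Y) × ℕ)
    (h1 : ∀ a, a < k → f a ∈ insert (t, 1) (baseFam k N w B))
    (h2 : ∀ a b, a < b → b < k → f a < f b)
    (h4 : ∀ j, l j = 1 → pt j ∈ insert (t, 1) (baseFam k N w B))
    (h5 : ∀ j j', l j = 1 → l j' = 1 → j ≠ j' → ¬ pt j ≤ pt j')
    (h6 : ∀ a j, a < k → l j = 1 → ¬ f a ≤ pt j ∧ ¬ pt j ≤ f a)
    (h7 : ∀ a, a < k → j1 ∈ (f a).1.1 ∧ (f a).2 ≤ 2 ∧ ((f a).2 = 0 → (f a).1.2 ≠ ∅) ∧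
      ((f a).2 = 2 → (f a).1.1 = {j1}))
    (h8 : ∀ j, l j = 1 → j1 ∈ (pt j).1.1 ∧ (pt j).2 ≤ 2 ∧ ((pt j).2 = 0 → (pt j).1.2 ≠ ∅) ∧
      ((pt j).2 = 2 → (pt j).1.1 = {j1})) :
    ∃ c, Cpy l (insert (t, 1) (baseFam k N w B)) c ∧ ∃ e : Finset {j // l j = k} × Finset Y,
      ∀ j, ∀ p ∈ c j, (p.2 = 0 → ¬ p.1 ≤ e) ∧ (p.2 = 2 → ¬ e ≤ p.1) := by
  classical
  have key : ∀ (i : {j // l j = k}) (a : ℕ) (p : (Finset {j // l j = k} × Finset Y) × ℕ),
      i ≠ j1 → j1 ∈ p.1.1 → p.2 ≤ 2 → (p.2 = 2 → p.1.1 = {j1}) →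
      ¬ uppC k T i a ≤ p ∧ ¬ p ≤ uppC k T i a := by
    intro i a p hi hp hp2 hp2'
    unfold uppC
    constructor
    · intro h
      have h9 := h.1.1
      have h10 := h.2
      simp only at h9 h10
      rw [hp2' (by omega), singleton_subset_iff, mem_singleton] at h9
      exact hi h9
    · intro h
      have h9 := h.1.1
      simp only at h9
      have h11 := h9 hp
      rw [mem_singleton] at h11
      exact hi h11.symm
  apply exists_copy hk hl _ (univ, ∅) (fun i => if i = j1 then f else uppC k T i) pt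
  · intro i a ha
    split_ifs with h
    · exact h1 a ha
    · exact Or.inr (uppC_mem hT i ha)
  · intro i a b hab hb
    split_ifs with h
    · exact h2 a b hab hb
    · exact uppC_lt hTm hT hY i hab hb
  · intro i i' hii a b ha hb
    split_ifs with h h' h'
    · exact absurd (h.trans h'.symm) hii
    · exact (key i' b (f a) h' (h7 a ha).1 (h7 a ha).2.1 (h7 a ha).2.2.2).2
    · exact (key i a (f b) h (h7 b hb).1 (h7 b hb).2.1 (h7 b hb).2.2.2).1
    · intro h9
      have h10 := h9.1.1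
      unfold uppC at h10
      simp only at h10
      rw [singleton_subset_iff, mem_singleton] at h10
      exact hii h10
  · exact h4
  · exact h5
  · intro i a j ha hj
    split_ifs with h
    · exact h6 a j ha hj
    · exact key i a (pt j) h (h8 j hj).1 (h8 j hj).2.1 (h8 j hj).2.2.2
  · intro i a ha
    split_ifs with h
    · refine ⟨fun h9 h10 => ?_, fun h9 h10 => ?_⟩
      · exact (h7 a ha).2.2.1 h9 (subset_empty.1 h10.2)
      · have h11 := univ_subset_iff.1 h10.1
        rw [(h7 a ha).2.2.2 h9] at h11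
        exact single_ne_univ hX _ h11
    · refine ⟨fun h9 h10 => ?_, fun h9 h10 => ?_⟩
      · unfold uppC at h9
        simp at h9
      · have h11 := univ_subset_iff.1 h10.1
        unfold uppC at h11
        exact single_ne_univ hX _ h11
  · intro j hj
    refine ⟨fun h9 h10 => ?_, fun h9 h10 => ?_⟩
    · exact (h8 j hj).2.2.1 h9 (subset_empty.1 h10.2)
    · have h11 := univ_subset_iff.1 h10.1
      rw [(h8 j hj).2.2.2 h9] at h11
      exact single_ne_univ hX _ h11

end Pool.Agent.Q110.BS
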