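import Mathlib

/-!
# Bounded induced saturation of unions of chains: the finite model

A family of subsets of `[n]` of bounded size which consists of small sets (subsets of a bounded set `A`)
and large sets (complements of small sets) is described by the pairs `(t, 0)` and `(t, 2)`, `t` the
trace on `A`; a set which splits the rest of the ground set is described by `(t, 1)`.
-/

set_option autoImplicit false

open Finset

namespace Pool.Agent.Q110.BS

/-- `c` consists of pairwise incomparable chains in `F` with `l j` elements -/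
structure Cpy {ι X : Type} [PartialOrder X] (l : ι → ℕ) (F : Set X) (c : ι → Finset X) :
    Prop where
  sub : ∀ j, ∀ x ∈ c j, x ∈ F
  card : ∀ j, (c j).card = l j
  chain : ∀ j, ∀ x ∈ c j, ∀ y ∈ c j, x ≤ y ∨ y ≤ x
  inc : ∀ i j, i ≠ j → ∀ x ∈ c i, ∀ y ∈ c j, ¬ x ≤ y

/-- `F` contains a copy of the disjoint union of chains with `l j` elements -/
def Cp {ι X : Type} [PartialOrder X] (l : ι → ℕ) (F : Set X) : Prop := ∃ c, Cpy l F c

theorem Cp.mono {ι X : Type} [PartialOrder X] {l : ι → ℕ} {F F' : Set X} (h : F ⊆ F')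
    (hF : Cp l F) : Cp l F' := by
  obtain ⟨c, hc⟩ := hF
  exact ⟨c, fun j x hx => h (hc.sub j x hx), hc.card, hc.chain, hc.inc⟩

theorem Cpy.map {ι X X' : Type} [PartialOrder X] [PartialOrder X'] [DecidableEq X']
    {l : ι → ℕ} {F : Set X} {c : ι → Finset X} (hc : Cpy l F c) (f : X → X')
    (hf : ∀ x ∈ F, ∀ y ∈ F, f x ≤ f y ↔ x ≤ y) :
    Cpy l (f '' F) (fun j => (c j).image f) where
  sub j x hx := by
    rw [mem_image] at hx
    obtain ⟨y, hy, rfl⟩ := hx
    exact ⟨y, hc.sub j y hy, rfl⟩
  card j := by
    rw [← hc.card j]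
    apply card_image_of_injOn
    intro x hx y hy hxy
    have hx' := hc.sub j x hx
    have hy' := hc.sub j y hy
    exact le_antisymm ((hf x hx' y hy').1 hxy.le) ((hf y hy' x hx').1 hxy.ge)
  chain j x hx y hy := by
    rw [mem_image] at hx hy
    obtain ⟨x, hx, rfl⟩ := hx
    obtain ⟨y, hy, rfl⟩ := hy
    rw [hf x (hc.sub j x hx) y (hc.sub j y hy), hf y (hc.sub j y hy) x (hc.sub j x hx)]
    exact hc.chain j x hx y hy
  inc i j hij x hx y hy := by
    rw [mem_image] at hx hy
    obtain ⟨x, hx, rfl⟩ := hx
    obtain ⟨y, hy, rfl⟩ := hy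
    rw [hf x (hc.sub i x hx) y (hc.sub j y hy)]
    exact hc.inc i j hij x hx y hy

theorem Cp.map {ι X X' : Type} [PartialOrder X] [PartialOrder X']
    {l : ι → ℕ} {F : Set X} (hc : Cp l F) (f : X → X')
    (hf : ∀ x ∈ F, ∀ y ∈ F, f x ≤ f y ↔ x ≤ y) : Cp l (f '' F) := by
  classical
  obtain ⟨c, hc⟩ := hc
  exact ⟨_, hc.map f hf⟩

theorem Cp.comap {ι X X' : Type} [PartialOrder X] [PartialOrder X']
    {l : ι → ℕ} {F : Set X} (f : X → X') (hc : Cp l (f '' F))
    (hf : ∀ x ∈ F, ∀ y ∈ F, f x ≤ f y ↔ x ≤ y) : Cp l F := by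
  classical
  by_cases hX : Nonempty X
  · have h1 := hc.map (Function.invFunOn f F) (by
      rintro x ⟨x, hx, rfl⟩ y ⟨y, hy, rfl⟩
      have ex := Function.invFunOn_apply_eq (f := f) hx
      have ey := Function.invFunOn_apply_eq (f := f) hy
      have mx := Function.invFunOn_apply_mem (f := f) hx
      have my := Function.invFunOn_apply_mem (f := f) hy
      rw [← hf _ mx _ my, ex, ey])
    refine h1.mono ?_
    rintro _ ⟨_, ⟨x, hx, rfl⟩, rfl⟩
    exact Function.invFunOn_apply_mem hx
  · obtain ⟨c, hc⟩ := hc
    refine ⟨fun _ => ∅, fun j x hx => by simp at hx, fun j => ?_, fun j x hx => by simp at hx,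
      fun i j _ x hx => by simp at hx⟩
    rw [card_empty, ← hc.card j]
    symm
    rw [card_eq_zero, eq_empty_iff_forall_notMem]
    intro x hx
    obtain ⟨y, -, -⟩ := hc.sub j x hx
    exact hX ⟨y⟩

/-- A set `V` of pairs `(t, 0)`, `(t, 2)` over a partial order `B` of traces contains no copy, but
together with any `(t, 1)` it contains one, which moreover has a trace `e` with the same relations as
a further incomparable element. -/
structure Good {ι B : Type} [PartialOrder B] (l : ι → ℕ) (V : Set (B × ℕ)) : Prop where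
  lev : ∀ p ∈ V, p.2 = 0 ∨ p.2 = 2
  free : ¬ Cp l V
  make : ∀ t : B, ∃ c, Cpy l (insert (t, 1) V) c ∧ ∃ e : B, ∀ j, ∀ p ∈ c j,
    (p.2 = 0 → ¬ p.1 ≤ e) ∧ (p.2 = 2 → ¬ e ≤ p.1)

/-- there is a finite model -/
def Str {ι : Type} (l : ι → ℕ) : Prop :=
  ∃ (A : Type) (_ : Fintype A) (_ : DecidableEq A) (V : Set (Finset A × ℕ)), Good l V

theorem Good.transport {ι B B' : Type} [PartialOrder B] [PartialOrder B'] {l : ι → ℕ}
    {V : Set (B × ℕ)} (h : Good l V) (f : B ≃o B') :
    Good l ((fun p : B × ℕ => (f p.1, p.2)) '' V) := by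
  classical
  have hf : ∀ x y : B × ℕ, (f x.1, x.2) ≤ (f y.1, y.2) ↔ x ≤ y := by
    intro x y
    rw [Prod.le_def, Prod.le_def]
    simp
  refine ⟨?_, ?_, ?_⟩
  · rintro _ ⟨p, hp, rfl⟩
    exact h.lev p hp
  · intro hc
    exact h.free (hc.comap _ (fun x _ y _ => hf x y))
  · intro t
    obtain ⟨c, hc, e, he⟩ := h.make (f.symm t)
    refine ⟨fun j => (c j).image (fun p : B × ℕ => (f p.1, p.2)), ?_, f e, ?_⟩
    · have h1 := hc.map (fun p : B × ℕ => (f p.1, p.2)) (fun x _ y _ => hf x y)
      have e1 : (fun p : B × ℕ => (f p.1, p.2)) '' (insert (f.symm t, 1) V) =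
          insert (t, 1) ((fun p : B × ℕ => (f p.1, p.2)) '' V) := by
        rw [Set.image_insert_eq]
        simp
      rw [e1] at h1
      exact h1
    · intro j p hp
      rw [mem_image] at hp
      obtain ⟨p, hp, rfl⟩ := hp
      simpa using he j p hp

/-- **From the model to all `n`.** -/
theorem bounded_of_str {m : ℕ} {l : Fin m → ℕ} (h : Str l) :
    ∃ C : ℕ, ∀ n : ℕ, ∃ F : Finset (Finset (Fin n)), ¬ Cp l (F : Set (Finset (Fin n))) ∧
      (∀ G, G ∉ F → Cp l (insert G (F : Set (Finset (Fin n))))) ∧ F.card ≤ C := by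
  classical
  obtain ⟨A, hA, hA', V, hV⟩ := h
  refine ⟨2 ^ (Fintype.card A + 1), fun n => ?_⟩
  -- maximal families
  have hmax : ∀ F0 : Finset (Finset (Fin n)), ¬ Cp l (F0 : Set (Finset (Fin n))) →
      ∃ F : Finset (Finset (Fin n)), F0 ⊆ F ∧ ¬ Cp l (F : Set (Finset (Fin n))) ∧
        ∀ G, G ∉ F → Cp l (insert G (F : Set (Finset (Fin n)))) := by
    intro F0 hF0
    obtain ⟨M, hM1, hM⟩ := (Set.toFinite {F : Finset (Finset (Fin n)) |
      ¬ Cp l (F : Set (Finset (Fin n)))}).exists_le_maximal (show F0 ∈ _ from hF0)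
    refine ⟨M, hM1, hM.1, fun G hG => ?_⟩
    by_contra hcon
    have h1 : ¬ Cp l ((insert G M : Finset (Finset (Fin n))) : Set (Finset (Fin n))) := by
      rw [coe_insert]; exact hcon
    exact hG (hM.2 (show insert G M ∈ {F : Finset (Finset (Fin n)) |
      ¬ Cp l (F : Set (Finset (Fin n)))} from h1) (subset_insert G M) (mem_insert_self G M))
  rcases le_or_gt n (Fintype.card A) with hn | hn
  · have h0 : ¬ Cp l ((∅ : Finset (Finset (Fin n))) : Set (Finset (Fin n))) := by
      rintro ⟨c, hc⟩
      apply hV.free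
      refine ⟨fun _ => ∅, fun j x hx => by simp at hx, fun j => ?_, fun j x hx => by simp at hx,
        fun i j _ x hx => by simp at hx⟩
      rw [card_empty, ← hc.card j]
      symm
      rw [card_eq_zero, eq_empty_iff_forall_notMem]
      intro x hx
      have := hc.sub j x hx
      simp at this
    obtain ⟨F, -, h1, h2⟩ := hmax ∅ h0
    refine ⟨F, h1, h2, ?_⟩
    calc F.card ≤ Fintype.card (Finset (Fin n)) := card_le_univ F
      _ = 2 ^ n := by rw [Fintype.card_finset, Fintype.card_fin]
      _ ≤ 2 ^ (Fintype.card A + 1) := Nat.pow_le_pow_right (by norm_num) (by omega)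
  · obtain ⟨e⟩ : Nonempty (A ↪ Fin n) :=
      Function.Embedding.nonempty_of_card_le (by rw [Fintype.card_fin]; exact hn.le)
    set B : Finset (Fin n) := (univ.map e)ᶜ with hB
    have hBne : B.Nonempty := by
      rw [← card_pos, hB, card_compl, card_map, card_univ, Fintype.card_fin]
      omega
    have hdis : ∀ t : Finset A, Disjoint (t.map e) B := by
      intro t
      rw [hB, disjoint_compl_right_iff]
      exact map_subset_map.2 (subset_univ t)
    set φ : Finset A × ℕ → Finset (Fin n) := fun p => p.1.map e ∪ (if p.2 = 0 then ∅ else B)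
      with hφ
    set E : Finset (Finset (Fin n)) := ((univ : Finset (Finset A)) ×ˢ ({0, 2} : Finset ℕ)).image φ
      with hE
    have hEcard : E.card ≤ 2 ^ (Fintype.card A + 1) := by
      refine card_image_le.trans ?_
      rw [card_product, card_univ, Fintype.card_finset]
      have : ({0, 2} : Finset ℕ).card = 2 := by decide
      rw [this, pow_succ]
    -- order
    have key : ∀ (G : Finset (Fin n)) (t : Finset A), (∀ a, e a ∈ G ↔ a ∈ t) →
        (∃ b ∈ B, b ∈ G) → (∃ b ∈ B, b ∉ G) → ∀ x ∈ insert (t, 1) V, ∀ y ∈ insert (t, 1) V,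
        ((if x.2 = 1 then G else φ x) ≤ (if y.2 = 1 then G else φ y) ↔ x ≤ y) := by
      intro G t ht hb1 hb2 x hx y hy
      obtain ⟨b1, hb1B, hb1⟩ := hb1
      obtain ⟨b2, hb2B, hb2⟩ := hb2
      have hnotB : ∀ a, e a ∉ B := by
        intro a ha
        rw [hB, mem_compl] at ha
        exact ha (mem_map_of_mem e (mem_univ a))
      have hBnot : ∀ (s : Finset A) b, b ∈ B → b ∉ s.map e := by
        intro s b hb hbs
        exact (disjoint_left.1 (hdis s)) hbs hb
      have hxl : x.2 = 1 ∧ x.1 = t ∨ x.2 = 0 ∨ x.2 = 2 := by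
        rcases hx with rfl | hx
        · exact Or.inl ⟨rfl, rfl⟩
        · exact Or.inr (hV.lev x hx)
      have hyl : y.2 = 1 ∧ y.1 = t ∨ y.2 = 0 ∨ y.2 = 2 := by
        rcases hy with rfl | hy
        · exact Or.inl ⟨rfl, rfl⟩
        · exact Or.inr (hV.lev y hy)
      have hmemφ0 : ∀ (s : Finset A) b, b ∈ φ (s, 0) ↔ b ∈ s.map e := by
        intro s b; simp [hφ]
      have hmemφ2 : ∀ (s : Finset A) b, b ∈ φ (s, 2) ↔ b ∈ s.map e ∨ b ∈ B := by
        intro s b; simp [hφ]
      obtain ⟨s, i⟩ := x
      obtain ⟨s', i'⟩ := y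
      simp only at hxl hyl
      rw [Prod.le_def]
      simp only
      rcases hxl with ⟨rfl, rfl⟩ | rfl | rfl <;> rcases hyl with ⟨rfl, h'⟩ | rfl | rfl
      · subst h'; simp
      · simp only [if_true, zero_ne_one, if_false]
        constructor
        · intro h
          exact absurd ((hmemφ0 s' b1).1 (h hb1)) (hBnot s' b1 hb1B)
        · intro h; omega
      · simp only [if_true, OfNat.ofNat_ne_one, if_false]
        constructor
        · intro h
          refine ⟨fun a ha => ?_, by norm_num⟩
          have h1 := (hmemφ2 s' (e a)).1 (h ((ht a).2 ha))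
          rcases h1 with h1 | h1
          · simpa using h1
          · exact absurd h1 (hnotB a)
        · rintro ⟨h, -⟩ b hb
          rw [hmemφ2]
          by_cases hbB : b ∈ B
          · exact Or.inr hbB
          · left
            rw [hB, mem_compl, not_not, mem_map] at hbB
            obtain ⟨a, -, rfl⟩ := hbB
            exact mem_map_of_mem e (h ((ht a).1 hb))
      · subst h'
        simp only [if_true, zero_ne_one, if_false]
        constructor
        · intro h
          refine ⟨fun a ha => ?_, by norm_num⟩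
          exact (ht a).1 (h ((hmemφ0 s (e a)).2 (mem_map_of_mem e ha)))
        · rintro ⟨h, -⟩ b hb
          rw [hmemφ0, mem_map] at hb
          obtain ⟨a, ha, rfl⟩ := hb
          exact (ht a).2 (h ha)
      · simp only [zero_ne_one, if_false]
        constructor
        · intro h
          refine ⟨fun a ha => ?_, le_rfl⟩
          have := (hmemφ0 s' (e a)).1 (h ((hmemφ0 s (e a)).2 (mem_map_of_mem e ha)))
          simpa using this
        · rintro ⟨h, -⟩ b hb
          rw [hmemφ0] at hb ⊢
          exact map_subset_map.2 h hb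
      · simp only [zero_ne_one, OfNat.ofNat_ne_one, if_false]
        constructor
        · intro h
          refine ⟨fun a ha => ?_, by norm_num⟩
          have := (hmemφ2 s' (e a)).1 (h ((hmemφ0 s (e a)).2 (mem_map_of_mem e ha)))
          rcases this with h1 | h1
          · simpa using h1
          · exact absurd h1 (hnotB a)
        · rintro ⟨h, -⟩ b hb
          rw [hmemφ0] at hb
          rw [hmemφ2]
          exact Or.inl (map_subset_map.2 h hb)
      · subst h'
        simp only [if_true, OfNat.ofNat_ne_one, if_false]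
        constructor
        · intro h
          exact absurd (h ((hmemφ2 s b2).2 (Or.inr hb2B))) hb2
        · intro h; omega
      · simp only [zero_ne_one, OfNat.ofNat_ne_one, if_false]
        constructor
        · intro h
          exact absurd ((hmemφ0 s' b1).1 (h ((hmemφ2 s b1).2 (Or.inr hb1B)))) (hBnot s' b1 hb1B)
        · intro h; omega
      · simp only [OfNat.ofNat_ne_one, if_false]
        constructor
        · intro h
          refine ⟨fun a ha => ?_, le_rfl⟩
          have := (hmemφ2 s' (e a)).1 (h ((hmemφ2 s (e a)).2 (Or.inl (mem_map_of_mem e ha))))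
          rcases this with h1 | h1
          · simpa using h1
          · exact absurd h1 (hnotB a)
        · rintro ⟨h, -⟩ b hb
          rw [hmemφ2] at hb ⊢
          rcases hb with hb | hb
          · exact Or.inl (map_subset_map.2 h hb)
          · exact Or.inr hb
    -- order on the family without generic sets
    have key0 : ∀ x ∈ V, ∀ y ∈ V, φ x ≤ φ y ↔ x ≤ y := by
      have hnotB : ∀ a, e a ∉ B := by
        intro a ha
        rw [hB, mem_compl] at ha
        exact ha (mem_map_of_mem e (mem_univ a))
      have hBnot : ∀ (s : Finset A) b, b ∈ B → b ∉ s.map e := by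
        intro s b hb hbs
        exact (disjoint_left.1 (hdis s)) hbs hb
      obtain ⟨b1, hb1B⟩ := hBne
      have hmemφ0 : ∀ (s : Finset A) b, b ∈ φ (s, 0) ↔ b ∈ s.map e := by
        intro s b; simp [hφ]
      have hmemφ2 : ∀ (s : Finset A) b, b ∈ φ (s, 2) ↔ b ∈ s.map e ∨ b ∈ B := by
        intro s b; simp [hφ]
      intro x hx y hy
      have hxl := hV.lev x hx
      have hyl := hV.lev y hy
      obtain ⟨s, i⟩ := x
      obtain ⟨s', i'⟩ := y
      simp only at hxl hyl
      rw [Prod.le_def]
      rcases hxl with rfl | rfl <;> rcases hyl with rfl | rfl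
      · constructor
        · intro h
          refine ⟨fun a ha => ?_, le_rfl⟩
          have := (hmemφ0 s' (e a)).1 (h ((hmemφ0 s (e a)).2 (mem_map_of_mem e ha)))
          simpa using this
        · rintro ⟨h, -⟩ b hb
          rw [hmemφ0] at hb ⊢
          exact map_subset_map.2 h hb
      · constructor
        · intro h
          refine ⟨fun a ha => ?_, by norm_num⟩
          have := (hmemφ2 s' (e a)).1 (h ((hmemφ0 s (e a)).2 (mem_map_of_mem e ha)))
          rcases this with h1 | h1
          · simpa using h1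
          · exact absurd h1 (hnotB a)
        · rintro ⟨h, -⟩ b hb
          rw [hmemφ0] at hb
          rw [hmemφ2]
          exact Or.inl (map_subset_map.2 h hb)
      · constructor
        · intro h
          exact absurd ((hmemφ0 s' b1).1 (h ((hmemφ2 s b1).2 (Or.inr hb1B)))) (hBnot s' b1 hb1B)
        · intro h; omega
      · constructor
        · intro h
          refine ⟨fun a ha => ?_, le_rfl⟩
          have := (hmemφ2 s' (e a)).1 (h ((hmemφ2 s (e a)).2 (Or.inl (mem_map_of_mem e ha))))
          rcases this with h1 | h1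
          · simpa using h1
          · exact absurd h1 (hnotB a)
        · rintro ⟨h, -⟩ b hb
          rw [hmemφ2] at hb ⊢
          rcases hb with hb | hb
          · exact Or.inl (map_subset_map.2 h hb)
          · exact Or.inr hb
    set F0 : Finset (Finset (Fin n)) := (Set.toFinite (φ '' V)).toFinset with hF0
    have hF0c : (F0 : Set (Finset (Fin n))) = φ '' V := by rw [hF0]; simp
    obtain ⟨F, h0, h1, h2⟩ := hmax F0 (by
      rw [hF0c]
      intro hc
      exact hV.free (hc.comap φ key0))
    refine ⟨F, h1, h2, ?_⟩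
    refine (card_le_card ?_).trans hEcard
    intro G hG
    by_contra hGE
    apply h1
    set t : Finset A := univ.filter (fun a => e a ∈ G) with ht
    have ht' : ∀ a, e a ∈ G ↔ a ∈ t := by intro a; simp [ht]
    have hdec : ∀ b, b ∈ G ↔ b ∈ t.map e ∨ (b ∈ B ∧ b ∈ G) := by
      intro b
      constructor
      · intro hb
        by_cases hbB : b ∈ B
        · exact Or.inr ⟨hbB, hb⟩
        · left
          rw [hB, mem_compl, not_not, mem_map] at hbB
          obtain ⟨a, -, rfl⟩ := hbB
          exact mem_map_of_mem e ((ht' a).1 hb)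
      · rintro (hb | hb)
        · rw [mem_map] at hb
          obtain ⟨a, ha, rfl⟩ := hb
          exact (ht' a).2 ha
        · exact hb.2
    have hb1 : ∃ b ∈ B, b ∈ G := by
      by_contra hcon
      push Not at hcon
      apply hGE
      rw [hE, mem_image]
      refine ⟨(t, 0), by simp, ?_⟩
      ext b
      rw [hdec b]
      simp only [hφ, if_true, union_empty]
      constructor
      · exact Or.inl
      · rintro (h | h)
        · exact h
        · exact absurd h.2 (hcon b h.1)
    have hb2 : ∃ b ∈ B, b ∉ G := by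
      by_contra hcon
      push Not at hcon
      apply hGE
      rw [hE, mem_image]
      refine ⟨(t, 2), by simp, ?_⟩
      ext b
      rw [hdec b]
      simp only [hφ, OfNat.ofNat_ne_zero, if_false, mem_union]
      constructor
      · rintro (h | h)
        · exact Or.inl h
        · exact Or.inr ⟨h, hcon b h⟩
      · rintro (h | h)
        · exact Or.inl h
        · exact Or.inr h.1
    obtain ⟨c, hc, -⟩ := hV.make t
    have h3 : Cp l ((fun x : Finset A × ℕ => if x.2 = 1 then G else φ x) '' (insert (t, 1) V)) :=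
      Cp.map ⟨c, hc⟩ _ (key G t ht' hb1 hb2)
    refine h3.mono ?_
    rintro _ ⟨x, hx, rfl⟩
    rcases hx with rfl | hx
    · simpa using hG
    · have hx1 : x.2 ≠ 1 := by
        rcases hV.lev x hx with h | h <;> omega
      simp only [hx1, if_false]
      apply h0
      have : φ x ∈ (F0 : Set (Finset (Fin n))) := by rw [hF0c]; exact ⟨x, hx, rfl⟩
      exact this

end Pool.Agent.Q110.BS
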