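import Pool.Agent.Q110.BS.Model

/-!
# The step: all chain lengths go up by one
-/

set_option autoImplicit false

open Finset

namespace Pool.Agent.Q110.BS

theorem exists_pivot {B : Type} [PartialOrder B] {V : Set (B × ℕ)}
    (hlev : ∀ p ∈ V, p.2 = 0 ∨ p.2 = 2)
    {t : B} {c : Finset (B × ℕ)} (hsub : ∀ x ∈ c, x ∈ insert (t, 1) V)
    (hch : ∀ x ∈ c, ∀ y ∈ c, x ≤ y ∨ y ≤ x) (hne : c.Nonempty) :
    ∃ p ∈ c, ∀ x ∈ c, (x.2 = 0 → x.1 ≤ p.1) ∧ (x.2 = 2 → p.1 ≤ x.1) ∧ (x.2 = 1 → x = p) := by
  classical
  have hl : ∀ x ∈ c, x = (t, 1) ∨ x.2 = 0 ∨ x.2 = 2 := by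
    intro x hx
    rcases hsub x hx with h | h
    · exact Or.inl h
    · exact Or.inr (hlev x h)
  by_cases h : (c.filter (fun x => x.2 ≤ 1)).Nonempty
  · obtain ⟨p, hp⟩ := (c.filter (fun x => x.2 ≤ 1)).exists_maximal h
    have hpc : p ∈ c := (mem_filter.1 hp.1).1
    have hp1 : p.2 ≤ 1 := (mem_filter.1 hp.1).2
    refine ⟨p, hpc, fun x hx => ⟨fun hx0 => ?_, fun hx2 => ?_, fun hx1 => ?_⟩⟩
    · rcases hch x hx p hpc with h1 | h1
      · exact h1.1
      · exact (hp.2 (mem_filter.2 ⟨hx, by omega⟩) h1).1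
    · rcases hch x hx p hpc with h1 | h1
      · have := h1.2
        omega
      · exact h1.1
    · rcases hch x hx p hpc with h1 | h1
      · have h2 := h1.2
        have h3 : p.2 = 1 := by omega
        rcases hl x hx with h4 | h4
        · rcases hl p hpc with h5 | h5
          · rw [h4, h5]
          · omega
        · omega
      · exact le_antisymm (hp.2 (mem_filter.2 ⟨hx, by omega⟩) h1) h1
  · have h2 : ∀ x ∈ c, x.2 = 2 := by
      intro x hx
      by_contra hcon
      apply h
      refine ⟨x, mem_filter.2 ⟨hx, ?_⟩⟩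
      rcases hl x hx with h4 | h4
      · rw [h4]
      · omega
    obtain ⟨p, hp⟩ := c.exists_minimal hne
    refine ⟨p, hp.1, fun x hx => ⟨fun hx0 => ?_, fun hx2 => ?_, fun hx1 => ?_⟩⟩
    · have := h2 x hx
      omega
    · rcases hch x hx p hp.1 with h1 | h1
      · exact (hp.2 hx h1).1
      · exact h1.1
    · have := h2 x hx
      omega

section
variable {A Z : Type} [Fintype A] [DecidableEq A] [Fintype Z] [DecidableEq Z]

/-- lifting the traces -/
def lft (ζ : Finset Z) (p : Finset A × ℕ) : (Finset A × Finset Z) × ℕ :=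
  ((p.1, if p.2 = 0 then ∅ else if p.2 = 2 then univ else ζ), p.2)

omit [Fintype A] [DecidableEq A] in
theorem lft_le (ζ : Finset Z) (x y : Finset A × ℕ) (hx : x.2 = 0 ∨ x.2 = 1 ∨ x.2 = 2)
    (hy : y.2 = 0 ∨ y.2 = 1 ∨ y.2 = 2) : lft ζ x ≤ lft ζ y ↔ x ≤ y := by
  rw [Prod.le_def, Prod.le_def, Prod.le_def]
  unfold lft
  simp only
  constructor
  · rintro ⟨⟨h1, -⟩, h2⟩
    exact ⟨h1, h2⟩
  · rintro ⟨h1, h2⟩
    refine ⟨⟨h1, ?_⟩, h2⟩
    rcases hx with hx | hx | hx <;> rcases hy with hy | hy | hy <;> rw [hx, hy] <;> simp <;> omega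

/-- the lifted family -/
def lifted (Z : Type) [Fintype Z] (V : Set (Finset A × ℕ)) : Set ((Finset A × Finset Z) × ℕ) :=
  {p | (p.2 = 0 ∧ p.1.2 = ∅ ∧ (p.1.1, 0) ∈ V) ∨ (p.2 = 2 ∧ p.1.2 = univ ∧ (p.1.1, 2) ∈ V)}

/-- the new antichain -/
def anti (A Z : Type) [Fintype A] : Set ((Finset A × Finset Z) × ℕ) :=
  {p | (p.2 = 0 ∧ p.1.1.card + p.1.2.card = Fintype.card A + 2) ∨
    (p.2 = 2 ∧ p.1.1.card + p.1.2.card = Fintype.card A + 1)}

omit [DecidableEq A] [Fintype Z] [DecidableEq Z] in
theorem anti_le {x y : (Finset A × Finset Z) × ℕ} (hx : x ∈ anti A Z) (hy : y ∈ anti A Z)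
    (h : x ≤ y) : x = y := by
  obtain ⟨⟨t, z⟩, i⟩ := x
  obtain ⟨⟨t', z'⟩, i'⟩ := y
  obtain ⟨⟨h1, h2⟩, h3⟩ := h
  simp only at h1 h2 h3
  unfold anti at hx hy
  simp only [Set.mem_ofPred_eq] at hx hy
  have c1 := card_le_card h1
  have c2 := card_le_card h2
  have hi : i = i' := by omega
  have e1 : t = t' := eq_of_subset_of_card_le h1 (by omega)
  have e2 : z = z' := eq_of_subset_of_card_le h2 (by omega)
  rw [e1, e2, hi]

omit [DecidableEq A] [DecidableEq Z] in
theorem anti_lft0 {ζ : Finset Z} {y : (Finset A × Finset Z) × ℕ} {x : Finset A × ℕ}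
    (hy : y ∈ anti A Z) (hx : x.2 = 0) :
    (lft ζ x ≤ y ↔ x.1 ≤ y.1.1) ∧ ¬ y ≤ lft ζ x := by
  obtain ⟨⟨t', z'⟩, i'⟩ := y
  obtain ⟨t, i⟩ := x
  simp only at hx
  subst hx
  unfold anti at hy
  simp only [Set.mem_ofPred_eq] at hy
  unfold lft
  simp only [if_true]
  constructor
  · constructor
    · intro h
      exact h.1.1
    · intro h
      exact ⟨⟨h, empty_subset _⟩, Nat.zero_le _⟩
  · rintro ⟨⟨h1, h2⟩, h3⟩
    simp only at h1 h2 h3
    have c2 := card_le_card h2
    rw [card_empty] at c2
    have c1 := card_le_univ t'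
    omega

omit [DecidableEq A] [DecidableEq Z] in
theorem anti_lft2 {ζ : Finset Z} (hZ : Fintype.card A + 2 < Fintype.card Z)
    {y : (Finset A × Finset Z) × ℕ} {x : Finset A × ℕ}
    (hy : y ∈ anti A Z) (hx : x.2 = 2) :
    (y ≤ lft ζ x ↔ y.1.1 ≤ x.1) ∧ ¬ lft ζ x ≤ y := by
  obtain ⟨⟨t', z'⟩, i'⟩ := y
  obtain ⟨t, i⟩ := x
  simp only at hx
  subst hx
  unfold anti at hy
  simp only [Set.mem_ofPred_eq] at hy
  unfold lft
  simp only [if_true, OfNat.ofNat_ne_zero, if_false]
  constructor
  · constructor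
    · intro h
      exact h.1.1
    · intro h
      refine ⟨⟨h, subset_univ _⟩, ?_⟩
      simp only
      omega
  · rintro ⟨⟨h1, h2⟩, h3⟩
    simp only at h1 h2 h3
    have c2 := card_le_card h2
    rw [card_univ] at c2
    omega

/-- **The step, general form.** -/
theorem good_step {ι : Type} {l : ι → ℕ} {V : Set (Finset A × ℕ)}
    (hV : Good (fun j => l j - 1) V) (Zs : ℕ → Option ι → Finset Z)
    (hcard : ∀ n o, 1 ≤ n → n ≤ Fintype.card A + 2 → (Zs n o).card = n)
    (hinj : ∀ n n' o o', Zs n o ⊆ Zs n' o' → o = o')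
    (hZ : Fintype.card A + 2 < Fintype.card Z) : Good l (lifted Z V ∪ anti A Z) := by
  classical
  have hAc : ∀ t : Finset A, t.card ≤ Fintype.card A := fun t => card_le_univ t
  refine ⟨?_, ?_, ?_⟩
  · rintro p ((h | h) | (h | h))
    · exact Or.inl h.1
    · exact Or.inr h.1
    · exact Or.inl h.1
    · exact Or.inr h.1
  · rintro ⟨c, hc⟩
    apply hV.free
    have h1 : ∀ j, ∃ d ⊆ c j, d.card = l j - 1 ∧ ∀ x ∈ d, x ∉ anti A Z := by
      intro j
      have h2 : ((c j).filter (fun x => x ∈ anti A Z)).card ≤ 1 := by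
        rw [card_le_one]
        intro x hx y hy
        rw [mem_filter] at hx hy
        rcases hc.chain j x hx.1 y hy.1 with h | h
        · exact anti_le hx.2 hy.2 h
        · exact (anti_le hy.2 hx.2 h).symm
      have h3 : l j - 1 ≤ ((c j).filter (fun x => ¬ x ∈ anti A Z)).card := by
        have := card_filter_add_card_filter_not (s := c j) (fun x => x ∈ anti A Z)
        rw [hc.card j] at this
        omega
      obtain ⟨d, hd, hd'⟩ := exists_subset_card_eq h3
      exact ⟨d, hd.trans (filter_subset _ _), hd', fun x hx => (mem_filter.1 (hd hx)).2⟩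
    choose d hd1 hd2 hd3 using h1
    have h2 : Cpy (fun j => l j - 1) (lifted Z V) d := by
      refine ⟨fun j x hx => ?_, hd2, fun j x hx y hy => hc.chain j x (hd1 j hx) y (hd1 j hy),
        fun i j hij x hx y hy => hc.inc i j hij x (hd1 i hx) y (hd1 j hy)⟩
      rcases hc.sub j x (hd1 j hx) with h | h
      · exact h
      · exact absurd h (hd3 j x hx)
    have h3 : lifted Z V = (lft (∅ : Finset Z)) '' V := by
      ext ⟨⟨t, z⟩, i⟩
      unfold lifted lft
      simp only [Set.mem_ofPred_eq, Set.mem_image]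
      constructor
      · rintro (⟨rfl, rfl, h⟩ | ⟨rfl, rfl, h⟩)
        · exact ⟨_, h, by simp⟩
        · exact ⟨_, h, by simp⟩
      · rintro ⟨⟨t', i'⟩, hx, h⟩
        simp only [Prod.mk.injEq] at h
        obtain ⟨⟨rfl, rfl⟩, rfl⟩ := h
        rcases hV.lev _ hx with h | h <;> simp only at h <;> subst h
        · exact Or.inl ⟨rfl, by simp, hx⟩
        · exact Or.inr ⟨rfl, by simp, hx⟩
    rw [h3] at h2
    exact Cp.comap _ ⟨d, h2⟩ (fun x hx y hy => lft_le _ x y
      (by rcases hV.lev x hx with h | h <;> omega) (by rcases hV.lev y hy with h | h <;> omega))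
  · rintro ⟨t, ζ⟩
    obtain ⟨c, hc, e, he⟩ := hV.make t
    -- levels
    have hlev : ∀ j, ∀ x ∈ c j, x = (t, 1) ∨ (x.2 = 0 ∨ x.2 = 2) ∧ x ∈ V := by
      intro j x hx
      rcases hc.sub j x hx with h | h
      · exact Or.inl h
      · exact Or.inr ⟨hV.lev x h, h⟩
    have hlev' : ∀ j, ∀ x ∈ c j, x.2 = 0 ∨ x.2 = 1 ∨ x.2 = 2 := by
      intro j x hx
      rcases hlev j x hx with h | h
      · rw [h]; simp
      · omega
    have hG : lft ζ (t, 1) = ((t, ζ), 1) := by
      unfold lft; simp
    -- lifted elements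
    have hlift : ∀ j, ∀ x ∈ c j, lft ζ x ∈ insert ((t, ζ), 1) (lifted Z V ∪ anti A Z) := by
      intro j x hx
      rcases hlev j x hx with h | ⟨h1, h2⟩
      · rw [h, hG]; exact Set.mem_insert _ _
      · right; left
        obtain ⟨x1, x2⟩ := x
        rcases h1 with h1 | h1 <;> simp only at h1 <;> subst h1
        · left; exact ⟨rfl, by simp [lft], h2⟩
        · right; exact ⟨rfl, by simp [lft], h2⟩
    -- the level of the extra points
    obtain ⟨lv, hlv, H1, H4⟩ : ∃ lv : ℕ, (lv = 0 ∨ lv = 2) ∧
        (∀ y ∈ anti A Z, y.2 = lv → ¬ y ≤ ((t, ζ), 1) ∧ ¬ ((t, ζ), 1) ≤ y) ∧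
        (∃ y ∈ anti A Z, y.1.1 = t ∧ y.2 = 2 - lv ∧ (y ≤ ((t, ζ), 1) ∨ ((t, ζ), 1) ≤ y)) := by
      have hAt := hAc t
      by_cases hbig : Fintype.card A + 2 ≤ t.card + ζ.card
      · refine ⟨2, Or.inr rfl, ?_, ?_⟩
        · rintro ⟨⟨u, z⟩, i⟩ hy rfl
          refine ⟨fun h => ?_, fun h => ?_⟩
          · have := h.2
            simp only at this
            omega
          · obtain ⟨⟨h1, h2⟩, h3⟩ := h
            simp only at h1 h2
            have c1 := card_le_card h1
            have c2 := card_le_card h2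
            unfold anti at hy
            simp only [Set.mem_ofPred_eq] at hy
            omega
        · obtain ⟨ζ', hζ', hζ'c⟩ := exists_subset_card_eq
            (show Fintype.card A + 2 - t.card ≤ ζ.card by omega)
          refine ⟨((t, ζ'), 0), ?_, rfl, rfl, Or.inl ⟨⟨le_rfl, hζ'⟩, Nat.zero_le _⟩⟩
          left
          refine ⟨rfl, ?_⟩
          simp only
          omega
      · refine ⟨0, Or.inl rfl, ?_, ?_⟩
        · rintro ⟨⟨u, z⟩, i⟩ hy rfl
          refine ⟨fun h => ?_, fun h => ?_⟩
          · obtain ⟨⟨h1, h2⟩, h3⟩ := h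
            simp only at h1 h2
            have c1 := card_le_card h1
            have c2 := card_le_card h2
            unfold anti at hy
            simp only [Set.mem_ofPred_eq] at hy
            omega
          · have := h.2
            simp only at this
            omega
        · obtain ⟨ζ', hζ', hζ'c⟩ := exists_superset_card_eq (s := ζ)
            (n := Fintype.card A + 1 - t.card) (by omega) (by omega)
          refine ⟨((t, ζ'), 2), ?_, rfl, rfl, Or.inr ⟨⟨le_rfl, hζ'⟩, by norm_num⟩⟩
          right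
          refine ⟨rfl, ?_⟩
          simp only
          omega
    have H5 : ∀ (u : Finset A) (o : Option ι) (i : ℕ), i = 0 ∨ i = 2 →
        ∃ n, ((u, Zs n o), i) ∈ anti A Z := by
      intro u o i hi
      have hu := hAc u
      rcases hi with rfl | rfl
      · refine ⟨Fintype.card A + 2 - u.card, Or.inl ⟨rfl, ?_⟩⟩
        simp only
        rw [hcard _ _ (by omega) (by omega)]
        omega
      · refine ⟨Fintype.card A + 1 - u.card, Or.inr ⟨rfl, ?_⟩⟩
        simp only
        rw [hcard _ _ (by omega) (by omega)]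
        omega
    -- the new elements
    have hν : ∀ j, ∃ y : (Finset A × Finset Z) × ℕ, y ∈ anti A Z ∧
        ((∃ p ∈ c j, (∀ x ∈ c j, (x.2 = 0 → x.1 ≤ p.1) ∧ (x.2 = 2 → p.1 ≤ x.1) ∧
            (x.2 = 1 → x = p)) ∧ y.1.1 = p.1 ∧ (p.2 = 0 → y.2 = 0) ∧ (p.2 = 2 → y.2 = 2) ∧
            (p.2 = 1 → y.2 = 2 - lv ∧ (y ≤ ((t, ζ), 1) ∨ ((t, ζ), 1) ≤ y))) ∨
          (c j = ∅ ∧ y.1.1 = e ∧ y.2 = lv ∧ ∃ n, y.1.2 = Zs n (some j))) := by
      intro j
      rcases (c j).eq_empty_or_nonempty with h0 | h0
      · obtain ⟨n, hn⟩ := H5 e (some j) lv hlv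
        exact ⟨_, hn, Or.inr ⟨h0, rfl, rfl, n, rfl⟩⟩
      · obtain ⟨p, hp, hp'⟩ := exists_pivot hV.lev (hc.sub j) (hc.chain j) h0
        rcases hlev j p hp with h1 | ⟨h1 | h1, -⟩
        · obtain ⟨y, hy, hy1, hy2, hy3⟩ := H4
          refine ⟨y, hy, Or.inl ⟨p, hp, hp', ?_, ?_, ?_, fun _ => ⟨hy2, hy3⟩⟩⟩
          · rw [hy1, h1]
          · intro h; rw [h1] at h; simp at h
          · intro h; rw [h1] at h; simp at h
        · obtain ⟨n, hn⟩ := H5 p.1 none 0 (Or.inl rfl)
          exact ⟨_, hn, Or.inl ⟨p, hp, hp', rfl, fun _ => rfl, fun h => by omega,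
            fun h => by omega⟩⟩
        · obtain ⟨n, hn⟩ := H5 p.1 none 2 (Or.inr rfl)
          exact ⟨_, hn, Or.inl ⟨p, hp, hp', rfl, fun h => by omega, fun _ => rfl,
            fun h => by omega⟩⟩
    choose ν hν1 hν2 using hν
    obtain ⟨n', hn'⟩ := H5 e none lv hlv
    -- own chain
    have K1 : ∀ j, ∀ x ∈ c j, ν j ≤ lft ζ x ∨ lft ζ x ≤ ν j := by
      intro j x hx
      rcases hν2 j with ⟨p, hp, hp', hy1, hy2, hy3, hy4⟩ | ⟨h0, -⟩
      · rcases hlev j x hx with h1 | ⟨h1 | h1, -⟩
        · have hx1 : x.2 = 1 := by rw [h1]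
          have hxp := (hp' x hx).2.2 hx1
          rw [h1, hG]
          exact (hy4 (by rw [← hxp]; exact hx1)).2
        · right
          rw [(anti_lft0 (hν1 j) h1).1, hy1]
          exact (hp' x hx).1 h1
        · left
          rw [(anti_lft2 hZ (hν1 j) h1).1, hy1]
          exact (hp' x hx).2.1 h1
      · rw [h0] at hx
        simp at hx
    -- other chains
    have K2 : ∀ i j, i ≠ j → ∀ x ∈ c i, ¬ ν j ≤ lft ζ x ∧ ¬ lft ζ x ≤ ν j := by
      intro i j hij x hx
      rcases hlev i x hx with h1 | ⟨h1 | h1, -⟩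
      · rw [h1, hG]
        rcases hν2 j with ⟨p, hp, hp', hy1, hy2, hy3, hy4⟩ | ⟨-, -, h3, -⟩
        · have hp1 : ¬ p ≤ x := hc.inc j i hij.symm p hp x hx
          have hp2 : ¬ x ≤ p := hc.inc i j hij x hx p hp
          rw [h1] at hp1 hp2
          rcases hlev' j p hp with h2 | h2 | h2
          · have h4 := hy2 h2
            constructor
            · intro h
              apply hp1
              refine ⟨?_, by simp only; omega⟩
              rw [← hy1]
              exact h.1.1
            · intro h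
              have := h.2
              simp only at this
              omega
          · exfalso
            apply hp1
            rcases hlev j p hp with h3 | h3
            · rw [h3]
            · omega
          · have h4 := hy3 h2
            constructor
            · intro h
              have := h.2
              simp only at this
              omega
            · intro h
              apply hp2
              refine ⟨?_, by simp only; omega⟩
              rw [← hy1]
              exact h.1.1
        · exact H1 _ (hν1 j) h3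
      · refine ⟨(anti_lft0 (hν1 j) h1).2, ?_⟩
        rw [(anti_lft0 (hν1 j) h1).1]
        intro h
        rcases hν2 j with ⟨p, hp, hp', hy1, hy2, hy3, hy4⟩ | ⟨-, h2, -⟩
        · apply hc.inc i j hij x hx p hp
          rw [hy1] at h
          exact ⟨h, by omega⟩
        · rw [h2] at h
          exact (he i x hx).1 h1 h
      · refine ⟨?_, (anti_lft2 hZ (hν1 j) h1).2⟩
        rw [(anti_lft2 hZ (hν1 j) h1).1]
        intro h
        rcases hν2 j with ⟨p, hp, hp', hy1, hy2, hy3, hy4⟩ | ⟨-, h2, -⟩
        · apply hc.inc j i hij.symm p hp x hx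
          rw [hy1] at h
          refine ⟨h, ?_⟩
          rcases hlev' j p hp with h2 | h2 | h2 <;> omega
        · rw [h2] at h
          exact (he i x hx).2 h1 h
    -- distinct
    have K3' : ∀ i j, i ≠ j → (∃ p ∈ c i, (ν i).1.1 = p.1 ∧ (p.2 = 1 → (ν i).2 = 2 - lv)) →
        ν i ≠ ν j := by
      rintro i j hij ⟨p, hp, hp1, hp2⟩ heq
      rcases hν2 j with ⟨q, hq, hq', hy1, hy2, hy3, hy4⟩ | ⟨-, h2, h3, -⟩
      · rw [heq, hy1] at hp1
        rcases le_total p.2 q.2 with h | h
        · exact hc.inc i j hij p hp q hq ⟨hp1.ge, h⟩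
        · exact hc.inc j i hij.symm q hq p hp ⟨hp1.le, h⟩
      · rw [heq, h2] at hp1
        rcases hlev' i p hp with h4 | h4 | h4
        · exact (he i p hp).1 h4 hp1.ge
        · have h5 := hp2 h4
          rw [heq, h3] at h5
          omega
        · exact (he i p hp).2 h4 hp1.le
    have K3 : ∀ i j, i ≠ j → ν i ≠ ν j := by
      intro i j hij
      rcases hν2 i with ⟨p, hp, hp', hy1, hy2, hy3, hy4⟩ | ⟨-, h2, h3, n1, h4⟩
      · exact K3' i j hij ⟨p, hp, hy1, fun h => (hy4 h).1⟩
      · rcases hν2 j with ⟨p, hp, hp', hy1, hy2, hy3, hy4⟩ | ⟨-, h5, h6, n2, h7⟩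
        · exact (K3' j i hij.symm ⟨p, hp, hy1, fun h => (hy4 h).1⟩).symm
        · intro heq
          rw [heq, h7] at h4
          have := hinj _ _ _ _ h4.le
          simp only [Option.some.injEq] at this
          exact hij this.symm
    have K4 : ∀ j, ν j ∉ (c j).image (lft ζ) := by
      intro j hj
      rw [mem_image] at hj
      obtain ⟨x, hx, hxe⟩ := hj
      rcases hlev' j x hx with h | h | h
      · exact (anti_lft0 (ζ := ζ) (hν1 j) h).2 hxe.ge
      · have h1 : (ν j).2 = 1 := by rw [← hxe]; exact h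
        rcases hν1 j with h2 | h2
        · have := h2.1; omega
        · have := h2.1; omega
      · exact (anti_lft2 (ζ := ζ) hZ (hν1 j) h).2 hxe.le
    refine ⟨fun j => if l j = 0 then ∅ else insert (ν j) ((c j).image (lft ζ)), ⟨?_, ?_, ?_, ?_⟩,
      (e, Zs n' none), ?_⟩
    · intro j x hx
      split_ifs at hx with h0
      · simp at hx
      · rw [mem_insert, mem_image] at hx
        rcases hx with rfl | ⟨x, hx, rfl⟩
        · right; right; exact hν1 j
        · exact hlift j x hx
    · intro j
      split_ifs with h0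
      · rw [h0, card_empty]
      · rw [card_insert_of_notMem (K4 j), card_image_of_injOn, hc.card j]
        · omega
        · intro x hx y hy hxy
          have hx1 := hlev' j x hx
          have hy1 := hlev' j y hy
          exact le_antisymm ((lft_le ζ x y hx1 hy1).1 hxy.le) ((lft_le ζ y x hy1 hx1).1 hxy.ge)
    · intro j x hx y hy
      split_ifs at hx hy with h0
      · simp at hx
      · rw [mem_insert, mem_image] at hx hy
        rcases hx with rfl | ⟨x, hx, rfl⟩ <;> rcases hy with rfl | ⟨y, hy, rfl⟩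
        · exact Or.inl le_rfl
        · exact K1 j y hy
        · exact (K1 j x hx).symm
        · rw [lft_le ζ x y (hlev' j x hx) (hlev' j y hy), lft_le ζ y x (hlev' j y hy) (hlev' j x hx)]
          exact hc.chain j x hx y hy
    · intro i j hij x hx y hy
      split_ifs at hx with h0
      · simp at hx
      split_ifs at hy with h0'
      · simp at hy
      rw [mem_insert, mem_image] at hx hy
      rcases hx with rfl | ⟨x, hx, rfl⟩ <;> rcases hy with rfl | ⟨y, hy, rfl⟩
      · intro h
        exact K3 i j hij (anti_le (hν1 i) (hν1 j) h)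
      · exact (K2 j i hij.symm y hy).1
      · exact (K2 i j hij x hx).2
      · rw [lft_le ζ x y (hlev' i x hx) (hlev' j y hy)]
        exact hc.inc i j hij x hx y hy
    · intro j x hx
      dsimp only at hx
      split_ifs at hx with h0
      · simp at hx
      rw [mem_insert, mem_image] at hx
      rcases hx with rfl | ⟨x, hx, rfl⟩
      · rcases hν2 j with ⟨p, hp, hp', hy1, hy2, hy3, hy4⟩ | ⟨-, h2, h3, n1, h4⟩
        · rcases hlev' j p hp with h5 | h5 | h5
          · have h6 := hy2 h5
            refine ⟨fun _ h => ?_, fun h => by omega⟩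
            apply (he j p hp).1 h5
            rw [← hy1]
            exact h.1
          · have h6 := (hy4 h5).1
            have h7 := hν1 j
            unfold anti at h7 hn'
            simp only [Set.mem_ofPred_eq] at h7 hn'
            refine ⟨fun h8 h => ?_, fun h8 h => ?_⟩
            · have c1 := card_le_card h.1
              have c2 := card_le_card h.2
              simp only at c1 c2
              omega
            · have c1 := card_le_card h.1
              have c2 := card_le_card h.2
              simp only at c1 c2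
              omega
          · have h6 := hy3 h5
            refine ⟨fun h => by omega, fun _ h => ?_⟩
            apply (he j p hp).2 h5
            rw [← hy1]
            exact h.1
        · refine ⟨fun _ h => ?_, fun _ h => ?_⟩
          · have h5 := h.2
            rw [h4] at h5
            have := hinj _ _ _ _ h5
            simp at this
          · have h5 := h.2
            rw [h4] at h5
            have := hinj _ _ _ _ h5
            simp at this
      · refine ⟨fun h1 h => (he j x hx).1 h1 h.1, fun h1 h => (he j x hx).2 h1 h.1⟩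

end

/-- **The step.** -/
theorem Str.step {ι : Type} [Fintype ι] {l : ι → ℕ} (h : Str (fun j => l j - 1)) : Str l := by
  classical
  obtain ⟨A, hA, hA', V, hV⟩ := h
  have hG := good_step (Z := Fin (Fintype.card A + 3) ⊕ Option ι) hV
    (fun n o => insert (Sum.inr o) ((univ.filter (fun x : Fin (Fintype.card A + 3) =>
      x.1 < n - 1)).map Function.Embedding.inl)) ?_ ?_ ?_
  · exact ⟨_, inferInstance, inferInstance, _, hG.transport Finset.sumEquiv.symm⟩
  · intro n o hn hn'
    rw [card_insert_of_notMem (by simp), card_map]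
    have : (univ.filter (fun x : Fin (Fintype.card A + 3) => x.1 < n - 1)).card = n - 1 := by
      have h1 : (univ.filter (fun x : Fin (Fintype.card A + 3) => x.1 < n - 1)).card =
          ((univ : Finset (Fin (n - 1))).map (Fin.castLEEmb (by omega :
            n - 1 ≤ Fintype.card A + 3))).card := by
        congr 1
        ext x
        simp only [mem_filter, mem_univ, true_and, mem_map]
        constructor
        · intro hx
          exact ⟨⟨x.1, hx⟩, by ext; rfl⟩
        · rintro ⟨y, rfl⟩
          exact y.2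
      rw [h1, card_map, card_univ, Fintype.card_fin]
    rw [this]
    omega
  · intro n n' o o' h
    have := h (mem_insert_self _ _)
    simpa using this
  · rw [Fintype.card_sum, Fintype.card_fin]
    omega

end Pool.Agent.Q110.BS
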